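import Pool.Agent.K6.H28.SF.Reg
import Pool.Agent.Helper111.EN.Basic

set_option autoImplicit false

/-! # Torsion-free nilpotent groups -/

namespace Pool.Agent.K6.H28.SF

open Multiplicative

/-- iterated extensions by the integers, `n` steps -/
def PZ : ℕ → ∀ (G : Type) [Group G], Prop
  | 0, G, _ => Subsingleton G
  | n + 1, G, _ => ∃ d : G →* Multiplicative ℤ, Function.Surjective d ∧ PZ n d.ker

theorem Reg_trivial (G : Type) [Group G] [Subsingleton G] : Reg (MonoidAlgebra ℤ G) := by
  classical
  have hx : ∀ x : MonoidAlgebra ℤ G, x = x.coeff 1 • (1 : MonoidAlgebra ℤ G) := by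
    intro x
    ext g
    have hg : g = 1 := Subsingleton.elim _ _
    subst hg
    rw [MonoidAlgebra.coeff_smul, Finsupp.smul_apply, MonoidAlgebra.one_def,
      MonoidAlgebra.coeff_single, Finsupp.single_eq_same, smul_eq_mul, mul_one]
  let e : ℤ →+* MonoidAlgebra ℤ G := Int.castRingHom _
  have he : Function.Surjective e := by
    intro x
    refine ⟨x.coeff 1, ?_⟩
    have h1 : e (x.coeff 1) = x.coeff 1 • (1 : MonoidAlgebra ℤ G) := by
      rw [zsmul_eq_mul, mul_one]; rfl
    rw [h1]
    exact (hx x).symm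
  have hnoeth : IsNoetherianRing (MonoidAlgebra ℤ G) := isNoetherianRing_of_surjective _ _ e he
  refine ⟨hnoeth, fun M _ _ hM => ?_⟩
  obtain ⟨n, f, hf⟩ := Module.Finite.exists_fin' (MonoidAlgebra ℤ G) M
  refine ⟨1, Fin n, inferInstance, f, hf, ?_⟩
  -- the kernel is free over `ℤ`
  let j : (Fin n → MonoidAlgebra ℤ G) →ₗ[ℤ] (Fin n → ℤ) :=
    { toFun := fun v a => (v a).coeff 1
      map_add' := fun _ _ => rfl
      map_smul' := fun _ _ => rfl }
  have hj : Function.Injective j := by
    intro v w h
    funext a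
    rw [hx (v a), hx (w a)]
    have : (v a).coeff 1 = (w a).coeff 1 := congrFun h a
    rw [this]
  let K : Submodule ℤ (Fin n → ℤ) := (LinearMap.ker (f.restrictScalars ℤ)).map j
  obtain ⟨r, bb⟩ := Submodule.basisOfPid (Pi.basisFun ℤ (Fin n)) K
  let e1 : LinearMap.ker (f.restrictScalars ℤ) ≃ₗ[ℤ] K :=
    Submodule.equivMapOfInjective j hj _
  let e2 : LinearMap.ker (f.restrictScalars ℤ) ≃ₗ[ℤ] (Fin r → ℤ) := e1.trans bb.equivFun
  let g : LinearMap.ker f → (Fin r → MonoidAlgebra ℤ G) := fun x a =>
    MonoidAlgebra.single 1 (e2 ⟨x.1, x.2⟩ a)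
  have hg : ∀ x a, g x a = MonoidAlgebra.single 1 (e2 ⟨x.1, x.2⟩ a) := fun _ _ => rfl
  have hsm : ∀ (c : MonoidAlgebra ℤ G) {N : Type} [AddCommGroup N] [Module (MonoidAlgebra ℤ G) N]
      (x : N), c • x = c.coeff 1 • x := by
    intro c N _ _ x
    conv_lhs => rw [hx c]
    rw [smul_assoc, one_smul]
  refine ⟨Fin r, inferInstance, ⟨LinearEquiv.ofBijective
    { toFun := g
      map_add' := ?_
      map_smul' := ?_ } ⟨?_, ?_⟩⟩⟩
  · intro x y
    funext a
    have h1 : e2 ⟨(x + y).1, (x + y).2⟩ = e2 ⟨x.1, x.2⟩ + e2 ⟨y.1, y.2⟩ := by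
      rw [← map_add]; rfl
    rw [Pi.add_apply, hg, hg, hg, h1, Pi.add_apply, MonoidAlgebra.single_add]
  · intro c x
    funext a
    rw [RingHom.id_apply, hsm c (g x)]
    have h1 : e2 ⟨(c • x).1, (c • x).2⟩ = c.coeff 1 • e2 ⟨x.1, x.2⟩ := by
      rw [← map_smul]
      congr 1
      apply Subtype.ext
      exact hsm c x.1
    rw [Pi.smul_apply, hg, hg, h1, Pi.smul_apply, MonoidAlgebra.smul_single]
  · intro x y h
    have h1 : e2 ⟨x.1, x.2⟩ = e2 ⟨y.1, y.2⟩ := by
      funext a
      have h3 : g x a = g y a := congrFun h a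
      rw [hg, hg] at h3
      have h4 := congrArg (fun z : MonoidAlgebra ℤ G => z.coeff 1) h3
      simpa using h4
    have h2 := e2.injective h1
    exact Subtype.ext (congrArg Subtype.val h2)
  · intro v
    obtain ⟨x, hx'⟩ := e2.surjective fun a => (v a).coeff 1
    refine ⟨⟨x.1, x.2⟩, ?_⟩
    funext a
    change MonoidAlgebra.single 1 (e2 x a) = v a
    rw [hx']
    ext g
    have hg : g = 1 := Subsingleton.elim _ _
    subst hg
    rw [MonoidAlgebra.coeff_single, Finsupp.single_eq_same]

theorem Reg_PZ : ∀ (n : ℕ) (G : Type) [Group G], PZ n G → Reg (MonoidAlgebra ℤ G) := by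
  intro n
  induction n with
  | zero =>
    intro G _ h
    have : Subsingleton G := h
    exact Reg_trivial G
  | succ n ih =>
    intro G _ h
    obtain ⟨d, hd, h⟩ := h
    obtain ⟨t, ht⟩ := hd (ofAdd 1)
    have ht' : dg d t = 1 := by rw [dg, ht]; rfl
    exact Reg_step ht' (ih _ h)

theorem PZ_iso : ∀ (n : ℕ) (G H : Type) [Group G] [Group H], (G ≃* H) → PZ n G → PZ n H := by
  intro n
  induction n with
  | zero =>
    intro G H _ _ e h
    have : Subsingleton G := h
    exact e.symm.toEquiv.subsingleton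
  | succ n ih =>
    intro G H _ _ e h
    obtain ⟨d, hd, h⟩ := h
    refine ⟨d.comp e.symm.toMonoidHom, hd.comp e.symm.surjective, ?_⟩
    refine ih _ _ ?_ h
    exact
      { toFun := fun x => ⟨e x.1, by
          change d (e.symm (e x.1)) = 1
          rw [e.symm_apply_apply]; exact x.2⟩
        invFun := fun y => ⟨e.symm y.1, y.2⟩
        left_inv := fun x => Subtype.ext (e.symm_apply_apply x.1)
        right_inv := fun y => Subtype.ext (e.apply_symm_apply y.1)
        map_mul' := fun x y => Subtype.ext (map_mul e x.1 y.1) }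

theorem PZ_ext : ∀ (n : ℕ) (Q : Type) [Group Q], PZ n Q → ∀ (G : Type) [Group G] (π : G →* Q),
    Function.Surjective π → ∀ m, PZ m π.ker → ∃ k, PZ k G := by
  intro n
  induction n with
  | zero =>
    intro Q _ h G _ π hπ m hm
    have hQ : Subsingleton Q := h
    refine ⟨m, PZ_iso m _ _ ?_ hm⟩
    have h1 : ∀ g : G, g ∈ π.ker := fun g => Subsingleton.elim _ _
    exact
      { toFun := fun x => x.1
        invFun := fun g => ⟨g, h1 g⟩
        left_inv := fun _ => rfl
        right_inv := fun _ => rfl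
        map_mul' := fun _ _ => rfl }
  | succ n ih =>
    intro Q _ h G _ π hπ m hm
    obtain ⟨d, hd, h⟩ := h
    have hmem : ∀ g : (d.comp π).ker, π g.1 ∈ d.ker := fun g => g.2
    let π' : (d.comp π).ker →* d.ker :=
      (π.comp (d.comp π).ker.subtype).codRestrict d.ker hmem
    have hπ' : Function.Surjective π' := by
      rintro ⟨q, hq⟩
      obtain ⟨g, rfl⟩ := hπ q
      exact ⟨⟨g, hq⟩, rfl⟩
    have hker : PZ m π'.ker := by
      refine PZ_iso m _ _ ?_ hm
      exact
        { toFun := fun x => ⟨⟨x.1, by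
            change d (π x.1) = 1
            rw [MonoidHom.mem_ker.1 x.2, map_one]⟩, by
            apply Subtype.ext
            exact x.2⟩
          invFun := fun y => ⟨y.1.1, by
            have := y.2
            exact congrArg Subtype.val (MonoidHom.mem_ker.1 this)⟩
          left_inv := fun _ => rfl
          right_inv := fun _ => rfl
          map_mul' := fun _ _ => rfl }
    obtain ⟨k, hk⟩ := ih _ h _ π' hπ' m hker
    exact ⟨k + 1, d.comp π, hd.comp hπ, hk⟩

theorem PZ_free : ∀ r : ℕ, ∃ k, PZ k (Multiplicative (Fin r → ℤ)) := by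
  intro r
  induction r with
  | zero =>
    refine ⟨0, ?_⟩
    change Subsingleton (Multiplicative (Fin 0 → ℤ))
    infer_instance
  | succ r ih =>
    obtain ⟨k, hk⟩ := ih
    let d : Multiplicative (Fin (r + 1) → ℤ) →* Multiplicative ℤ :=
      (Pi.evalAddMonoidHom (fun _ : Fin (r + 1) => ℤ) 0).toMultiplicative
    refine ⟨k + 1, d, ?_, PZ_iso k _ _ ?_ hk⟩
    · intro z
      exact ⟨ofAdd fun _ => toAdd z, rfl⟩
    · exact
        { toFun := fun x => ⟨ofAdd (Fin.cons 0 (toAdd x) : Fin (r + 1) → ℤ), rfl⟩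
          invFun := fun y => ofAdd (Fin.tail (toAdd y.1))
          left_inv := fun x => by
            change ofAdd (Fin.tail (Fin.cons 0 (toAdd x) : Fin (r + 1) → ℤ)) = x
            rw [Fin.tail_cons]; rfl
          right_inv := fun y => by
            apply Subtype.ext
            have h0 : (toAdd y.1) 0 = 0 := y.2
            change ofAdd (Fin.cons 0 (Fin.tail (toAdd y.1)) : Fin (r + 1) → ℤ) = y.1
            have h1 : (Fin.cons 0 (Fin.tail (toAdd y.1)) : Fin (r + 1) → ℤ) = toAdd y.1 := by
              rw [← h0]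
              exact Fin.cons_self_tail _
            rw [h1]; rfl
          map_mul' := fun x y => by
            apply Subtype.ext
            change ofAdd (Fin.cons 0 (toAdd x + toAdd y) : Fin (r + 1) → ℤ)
              = ofAdd ((Fin.cons 0 (toAdd x) : Fin (r + 1) → ℤ) + Fin.cons 0 (toAdd y))
            congr 1
            funext i
            refine Fin.cases ?_ (fun i => ?_) i <;> simp }

theorem PZ_abelian (A : Type) [CommGroup A] (hA : Group.FG A)
    (htf : ∀ g : A, IsOfFinOrder g → g = 1) : ∃ k, PZ k A := by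
  have h1 : Module.Finite ℤ (Additive A) := by
    rw [Module.Finite.iff_addGroup_fg]
    exact AddGroup.fg_iff_mul_fg.2 (by
      have : Group.FG (Multiplicative (Additive A)) := hA
      exact this)
  have h2 : Module.IsTorsionFree ℤ (Additive A) := by
    rw [Module.isTorsionFree_iff_smul_eq_zero]
    intro n x hnx
    by_cases hn : n = 0
    · exact Or.inl hn
    right
    have h3 : (Additive.toMul x) ^ n = 1 := hnx
    apply Additive.toMul.injective
    apply htf
    rw [isOfFinOrder_iff_zpow_eq_one]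
    exact ⟨n, hn, h3⟩
  have h3 : Module.Free ℤ (Additive A) := inferInstance
  let b := (Module.finBasis ℤ (Additive A)).equivFun
  obtain ⟨k, hk⟩ := PZ_free (Module.finrank ℤ (Additive A))
  refine ⟨k, PZ_iso k _ _ ?_ hk⟩
  exact
    { toFun := fun x => Additive.toMul (b.symm (toAdd x))
      invFun := fun a => ofAdd (b (Additive.ofMul a))
      left_inv := fun x => by
        change ofAdd (b (b.symm (toAdd x))) = x
        rw [b.apply_symm_apply]; rfl
      right_inv := fun a => by
        change Additive.toMul (b.symm (b (Additive.ofMul a))) = a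
        rw [b.symm_apply_apply]; rfl
      map_mul' := fun x y => by
        change Additive.toMul (b.symm (toAdd x + toAdd y)) = _
        rw [map_add]; rfl }

theorem PZ_abelian' (A : Type) [Group A] (hc : ∀ a b : A, a * b = b * a) (hA : Group.FG A)
    (htf : ∀ g : A, IsOfFinOrder g → g = 1) : ∃ k, PZ k A :=
  @PZ_abelian A { (inferInstance : Group A) with mul_comm := hc } hA htf

theorem PZ_nilpotent (G : Type) [Group G] [Group.IsNilpotent G] :
    Group.FG G → (∀ g : G, IsOfFinOrder g → g = 1) → ∃ k, PZ k G := by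
  refine Group.nilpotent_center_quotient_ind (P := fun G _ _ => Group.FG G →
    (∀ g : G, IsOfFinOrder g → g = 1) → ∃ k, PZ k G) G ?_ ?_
  · intro G _ hG _ _
    exact ⟨0, hG⟩
  · intro G _ hN ih hFG htf
    have hq : Group.FG (G ⧸ Subgroup.center G) := QuotientGroup.fg _
    have hqtf : ∀ g : G ⧸ Subgroup.center G, IsOfFinOrder g → g = 1 := by
      apply quot_tf
      intro g k hk h
      apply Pool.Agent.Helper111.EN.center_root k _ g h
      intro x hx
      exact htf x (isOfFinOrder_iff_pow_eq_one.2 ⟨k, hk, hx⟩)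
    obtain ⟨n, hn⟩ := ih hq hqtf
    have hZfg : Group.FG (Subgroup.center G) :=
      (Group.fg_iff_subgroup_fg _).2 Pool.Agent.Helper111.EN.center_fg
    obtain ⟨m, hm⟩ := PZ_abelian' (Subgroup.center G) (by
      intro a b
      apply Subtype.ext
      exact (Subgroup.mem_center_iff.1 b.2 a.1)) hZfg (by
      intro g hg
      apply Subtype.ext
      exact htf g.1 ((Submonoid.isOfFinOrder_coe (H := (Subgroup.center G).toSubmonoid)).2 hg))
    refine PZ_ext n _ hn G (QuotientGroup.mk' _) (QuotientGroup.mk'_surjective _) m ?_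
    rw [QuotientGroup.ker_mk']
    exact hm

/-- Q1 for torsion-free nilpotent groups. -/
theorem allSf_nilpotent (G : Type) [Group G] [Group.IsNilpotent G]
    (htf : ∀ g : G, IsOfFinOrder g → g = 1) : AllSf G := by
  intro m E hE
  obtain ⟨n, φ, B, hB⟩ := lift_free E
  let π := φ.rangeRestrict
  have hφ : φ.range.subtype.comp π = φ := by
    ext x
    rfl
  have hinj : Function.Injective (gr φ.range.subtype) :=
    MonoidAlgebra.mapDomain_injective Subtype.val_injective
  have hidem : B.map (gr π) * B.map (gr π) = B.map (gr π) := by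
    have h1 : ∀ X Y : Matrix (Fin m) (Fin m) (MonoidAlgebra ℤ φ.range),
        X.map (gr φ.range.subtype) = Y.map (gr φ.range.subtype) → X = Y := by
      intro X Y h
      ext1 p q
      exact hinj (congrFun (congrFun h p) q)
    apply h1
    rw [Matrix.map_mul, map_gr_comp, hφ, hB, hE]
  have hFG : Group.FG φ.range := by
    have h2 : Group.FG (FreeGroup (Fin n)) := inferInstance
    exact Group.fg_of_surjective φ.rangeRestrict_surjective
  obtain ⟨k, hk⟩ := PZ_nilpotent φ.range hFG (by
    intro g hg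
    apply Subtype.ext
    apply htf
    exact (Submonoid.isOfFinOrder_coe (H := φ.range.toSubmonoid)).2 hg)
  obtain ⟨_, hreg⟩ := Reg_PZ k _ hk
  have hall : AllSf φ.range := by
    intro n' E' hE'
    refine sf_of_modules ?_ E' hE'
    intro P _ _ hf hP
    obtain ⟨c, hc⟩ := hreg P hf
    obtain ⟨α, β, i1, i2, ⟨e⟩⟩ := stablyFree_of_FR c P hP hc
    exact ⟨Fintype.card α, Fintype.card β, ⟨((LinearEquiv.refl _ P).prodCongr
      (LinearEquiv.funCongrLeft _ _ (Fintype.equivFin α))).trans
      (e.trans (LinearEquiv.funCongrLeft _ _ (Fintype.equivFin β).symm))⟩⟩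
  have h3 := (hall m (B.map (gr π)) hidem).map (gr φ.range.subtype)
  rwa [map_gr_comp, hφ, hB] at h3

end Pool.Agent.K6.H28.SF
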