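import Mathlib

set_option autoImplicit false

/-! # Stably free modules and idempotent matrices -/

namespace Pool.Agent.K6.H28.SF

open Matrix

variable {R S : Type} [Ring R] [Ring S]

/-- the idempotent matrix `E` defines a stably free module -/
def Sf {n : ℕ} (E : Matrix (Fin n) (Fin n) R) : Prop :=
  ∃ (a b : ℕ) (U : Matrix (Fin n ⊕ Fin a) (Fin b) R) (V : Matrix (Fin b) (Fin n ⊕ Fin a) R),
    U * V = fromBlocks E 0 0 1 ∧ V * U = 1

theorem Sf.map (φ : R →+* S) {n : ℕ} {E : Matrix (Fin n) (Fin n) R} (h : Sf E) :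
    Sf (E.map φ) := by
  obtain ⟨a, b, U, V, h1, h2⟩ := h
  refine ⟨a, b, U.map φ, V.map φ, ?_, ?_⟩
  · rw [← Matrix.map_mul, h1, Matrix.fromBlocks_map]
    simp
  · rw [← Matrix.map_mul, h2]
    simp

/-- the row module of an idempotent matrix is projective -/
theorem row_projective {n : ℕ} (E : Matrix (Fin n) (Fin n) R) (hE : E * E = E) :
    Module.Projective R (LinearMap.range E.vecMulLinear) := by
  refine Module.Projective.of_split (LinearMap.range E.vecMulLinear).subtype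
    (E.vecMulLinear.rangeRestrict) ?_
  ext1 v
  apply Subtype.ext
  obtain ⟨v, x, rfl⟩ := v
  change (x ᵥ* E) ᵥ* E = x ᵥ* E
  rw [Matrix.vecMul_vecMul, hE]

/-- from the row module to matrices -/
theorem sf_of_row {n : ℕ} (E : Matrix (Fin n) (Fin n) R) (hE : E * E = E) {a b : ℕ}
    (e : (LinearMap.range E.vecMulLinear × (Fin a → R)) ≃ₗ[R] (Fin b → R)) : Sf E := by
  have hv : ∀ v ∈ LinearMap.range E.vecMulLinear, v ᵥ* E = v := by
    rintro _ ⟨x, rfl⟩
    rw [Matrix.vecMulLinear_apply, Matrix.vecMul_vecMul, hE]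
  -- the maps
  let F : (Fin n ⊕ Fin a → R) →ₗ[R] (LinearMap.range E.vecMulLinear × (Fin a → R)) :=
    LinearMap.prod (E.vecMulLinear.rangeRestrict ∘ₗ LinearMap.fst R _ _ ∘ₗ
      (LinearEquiv.sumArrowLequivProdArrow (Fin n) (Fin a) R R).toLinearMap)
      (LinearMap.snd R _ _ ∘ₗ
      (LinearEquiv.sumArrowLequivProdArrow (Fin n) (Fin a) R R).toLinearMap)
  let J : (LinearMap.range E.vecMulLinear × (Fin a → R)) →ₗ[R] (Fin n ⊕ Fin a → R) :=
    (LinearEquiv.sumArrowLequivProdArrow (Fin n) (Fin a) R R).symm.toLinearMap ∘ₗ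
      LinearMap.prodMap (LinearMap.range E.vecMulLinear).subtype LinearMap.id
  have hFJ : ∀ p, F (J p) = p := by
    rintro ⟨p, z⟩
    refine Prod.ext (Subtype.ext ?_) rfl
    exact hv p p.2
  have hJF : ∀ w, J (F w) = w ᵥ* fromBlocks E 0 0 1 := by
    intro w
    rw [Matrix.vecMul_fromBlocks]
    funext i
    rcases i with i | i
    · simp [J, F]
      rfl
    · simp [J, F]
  let U : Matrix (Fin n ⊕ Fin a) (Fin b) R := fun i => e (F (Pi.single i 1))
  let V : Matrix (Fin b) (Fin n ⊕ Fin a) R := fun j => J (e.symm (Pi.single j 1))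
  have hU : ∀ w, w ᵥ* U = e (F w) := by
    intro w
    have h1 : U.vecMulLinear = e.toLinearMap ∘ₗ F := by
      apply (Pi.basisFun R _).ext
      intro j
      rw [Matrix.vecMulLinear_apply, Pi.basisFun_apply, Matrix.single_one_vecMul]
      rfl
    exact LinearMap.congr_fun h1 w
  have hV : ∀ w, w ᵥ* V = J (e.symm w) := by
    intro w
    have h1 : V.vecMulLinear = J ∘ₗ e.symm.toLinearMap := by
      apply (Pi.basisFun R _).ext
      intro j
      rw [Matrix.vecMulLinear_apply, Pi.basisFun_apply, Matrix.single_one_vecMul]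
      rfl
    exact LinearMap.congr_fun h1 w
  refine ⟨a, b, U, V, ?_, ?_⟩
  · ext1 i
    have h1 : (U * V) i = Pi.single i 1 ᵥ* (U * V) := by
      rw [Matrix.single_one_vecMul]; rfl
    have h2 : (fromBlocks E 0 0 (1 : Matrix (Fin a) (Fin a) R)) i
        = Pi.single i 1 ᵥ* fromBlocks E 0 0 1 := by
      rw [Matrix.single_one_vecMul]; rfl
    rw [h1, h2, ← Matrix.vecMul_vecMul, hU, hV, e.symm_apply_apply, hJF]
    intro j; rfl
  · ext1 i
    have h1 : (V * U) i = Pi.single i 1 ᵥ* (V * U) := by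
      rw [Matrix.single_one_vecMul]; rfl
    rw [h1, ← Matrix.vecMul_vecMul, hV, hU, hFJ, e.apply_symm_apply]
    intro j
    rw [Matrix.one_apply, Pi.single_apply]
    simp [eq_comm]

/-- from modules to matrices -/
theorem sf_of_modules
    (h : ∀ (P : Type) [AddCommGroup P] [Module R P], Module.Finite R P → Module.Projective R P →
      ∃ n m : ℕ, Nonempty ((P × (Fin n → R)) ≃ₗ[R] (Fin m → R)))
    {n : ℕ} (E : Matrix (Fin n) (Fin n) R) (hE : E * E = E) : Sf E := by
  obtain ⟨a, b, ⟨e⟩⟩ := h (LinearMap.range E.vecMulLinear) inferInstance (row_projective E hE)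
  exact sf_of_row E hE e

/-- from matrices to a module which is a retract of a free module -/
theorem equiv_of_sf {P : Type} [AddCommGroup P] [Module R P] {n : ℕ} (f : (Fin n → R) →ₗ[R] P)
    (s : P →ₗ[R] (Fin n → R)) (hs' : ∀ p, f (s p) = p) (E : Matrix (Fin n) (Fin n) R)
    (hEv : ∀ w, w ᵥ* E = s (f w)) (h : Sf E) :
    ∃ n m : ℕ, Nonempty ((P × (Fin n → R)) ≃ₗ[R] (Fin m → R)) := by
  obtain ⟨a, b, U, V, h1, h2⟩ := h
  let F : (P × (Fin a → R)) →ₗ[R] (Fin b → R) := U.vecMulLinear ∘ₗ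
    (LinearEquiv.sumArrowLequivProdArrow (Fin n) (Fin a) R R).symm.toLinearMap ∘ₗ
      LinearMap.prodMap s LinearMap.id
  let D : (Fin b → R) →ₗ[R] (P × (Fin a → R)) := LinearMap.prodMap f LinearMap.id ∘ₗ
    (LinearEquiv.sumArrowLequivProdArrow (Fin n) (Fin a) R R).toLinearMap ∘ₗ V.vecMulLinear
  have hFD : ∀ w, F (D w) = w := by
    intro w
    have e1 : F (D w) = Sum.elim (s (f ((w ᵥ* V) ∘ Sum.inl))) ((w ᵥ* V) ∘ Sum.inr) ᵥ* U := rfl
    have e2 : Sum.elim (s (f ((w ᵥ* V) ∘ Sum.inl))) ((w ᵥ* V) ∘ Sum.inr)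
        = (w ᵥ* V) ᵥ* fromBlocks E 0 0 1 := by
      rw [Matrix.vecMul_fromBlocks, ← hEv]
      simp
    have e3 : V * (U * V * U) = 1 := by
      rw [Matrix.mul_assoc U V U, h2, Matrix.mul_one, h2]
    rw [e1, e2, ← h1, Matrix.vecMul_vecMul, Matrix.vecMul_vecMul, e3, Matrix.vecMul_one]
  have hDF : ∀ p, D (F p) = p := by
    rintro ⟨p, z⟩
    have e1 : D (F (p, z)) = (f ((Sum.elim (s p) z ᵥ* U ᵥ* V) ∘ Sum.inl),
      (Sum.elim (s p) z ᵥ* U ᵥ* V) ∘ Sum.inr) := rfl
    rw [e1, Matrix.vecMul_vecMul, h1, Matrix.vecMul_fromBlocks]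
    simp [hEv, hs']
  exact ⟨a, b, ⟨LinearEquiv.ofLinearMap F D (LinearMap.ext hFD) (LinearMap.ext hDF)⟩⟩

/-- the row module of an idempotent matrix -/
theorem sf_iff_row {n : ℕ} (E : Matrix (Fin n) (Fin n) R) (hE : E * E = E) :
    Sf E ↔ ∃ a b : ℕ, Nonempty ((LinearMap.range E.vecMulLinear × (Fin a → R)) ≃ₗ[R]
      (Fin b → R)) := by
  constructor
  · intro h
    refine equiv_of_sf E.vecMulLinear.rangeRestrict (LinearMap.range E.vecMulLinear).subtype
      ?_ E (fun _ => rfl) h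
    rintro ⟨_, x, rfl⟩
    apply Subtype.ext
    change (x ᵥ* E) ᵥ* E = x ᵥ* E
    rw [Matrix.vecMul_vecMul, hE]
  · rintro ⟨a, b, ⟨e⟩⟩
    exact sf_of_row E hE e

/-- from matrices to modules -/
theorem modules_of_sf
    (h : ∀ (n : ℕ) (E : Matrix (Fin n) (Fin n) R), E * E = E → Sf E)
    (P : Type) [AddCommGroup P] [Module R P] (hf : Module.Finite R P)
    (hP : Module.Projective R P) :
    ∃ n m : ℕ, Nonempty ((P × (Fin n → R)) ≃ₗ[R] (Fin m → R)) := by
  obtain ⟨n, f, hfs⟩ := Module.Finite.exists_fin' R P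
  obtain ⟨s, hs⟩ := Module.projective_lifting_property f LinearMap.id hfs
  have hs' : ∀ p, f (s p) = p := fun p => LinearMap.congr_fun hs p
  let E : Matrix (Fin n) (Fin n) R := fun i => s (f (Pi.single i 1))
  have hEv : ∀ w, w ᵥ* E = s (f w) := by
    intro w
    have h1 : E.vecMulLinear = s ∘ₗ f := by
      apply (Pi.basisFun R (Fin n)).ext
      intro j
      rw [Matrix.vecMulLinear_apply, Pi.basisFun_apply, Matrix.single_one_vecMul]
      rfl
    exact LinearMap.congr_fun h1 w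
  have hE : E * E = E := by
    ext1 i
    have h1 : (E * E) i = E i ᵥ* E := rfl
    rw [h1, hEv]
    intro j
    change s (f (s (f (Pi.single i 1)))) j = _
    rw [hs']
  exact equiv_of_sf f s hs' E hEv (h n E hE)

end Pool.Agent.K6.H28.SF
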