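import Pool.Agent.K6.H28.SF.Basic
import Pool.Agent.K6.H28.SF.Mod

set_option autoImplicit false

/-! # Idempotent matrices over group rings and ultraproducts of groups -/

namespace Pool.Agent.K6.H28.SF

open Matrix Filter

section ultra

variable (𝒰 : Ultrafilter ℕ) (G : ℕ → Type) [∀ i, Group (G i)]

/-- the normal subgroup of the sequences which are trivial almost everywhere -/
def aeOne : Subgroup (∀ i, G i) where
  carrier := {x | ∀ᶠ i in (𝒰 : Filter ℕ), x i = 1}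
  mul_mem' := by
    intro x y hx hy
    filter_upwards [hx, hy] with i h1 h2
    rw [Pi.mul_apply, h1, h2, one_mul]
  one_mem' := Eventually.of_forall fun i => rfl
  inv_mem' := by
    intro x hx
    filter_upwards [hx] with i h1
    rw [Pi.inv_apply, h1, inv_one]

instance : (aeOne 𝒰 G).Normal := ⟨fun x hx g => by
  filter_upwards [hx] with i h1
  rw [Pi.mul_apply, Pi.mul_apply, h1, mul_one, Pi.inv_apply, mul_inv_cancel]⟩

theorem mem_aeOne (x : ∀ i, G i) : x ∈ aeOne 𝒰 G ↔ ∀ᶠ i in (𝒰 : Filter ℕ), x i = 1 := Iff.rfl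

/-- the group ring of the product maps to the group ring of the ultraproduct -/
noncomputable def toU : MonoidAlgebra ℤ (∀ i, G i) →+* MonoidAlgebra ℤ ((∀ i, G i) ⧸ aeOne 𝒰 G) :=
  MonoidAlgebra.mapDomainRingHom ℤ (QuotientGroup.mk' (aeOne 𝒰 G))

/-- the components -/
noncomputable def ev (i : ℕ) : MonoidAlgebra ℤ (∀ i, G i) →+* MonoidAlgebra ℤ (G i) :=
  MonoidAlgebra.mapDomainRingHom ℤ (Pi.evalMonoidHom G i)

theorem mk_eq_iff (h k : ∀ i, G i) : (QuotientGroup.mk' (aeOne 𝒰 G)) k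
    = (QuotientGroup.mk' (aeOne 𝒰 G)) h ↔ ∀ᶠ i in (𝒰 : Filter ℕ), k i = h i := by
  rw [QuotientGroup.mk'_apply, QuotientGroup.mk'_apply, QuotientGroup.eq, mem_aeOne]
  refine eventually_congr (Eventually.of_forall fun i => ?_)
  rw [Pi.mul_apply, Pi.inv_apply, inv_mul_eq_one]

theorem same_ident (x : MonoidAlgebra ℤ (∀ i, G i)) :
    ∀ᶠ i in (𝒰 : Filter ℕ), ∀ h ∈ x.coeff.support, ∀ k ∈ x.coeff.support,
        ((QuotientGroup.mk' (aeOne 𝒰 G)) k = (QuotientGroup.mk' (aeOne 𝒰 G)) h ↔ k i = h i) := by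
  have h2 : ∀ h ∈ x.coeff.support, ∀ k ∈ x.coeff.support, ∀ᶠ i in (𝒰 : Filter ℕ),
      ((QuotientGroup.mk' (aeOne 𝒰 G)) k = (QuotientGroup.mk' (aeOne 𝒰 G)) h ↔ k i = h i) := by
    intro h _ k _
    by_cases hk : (QuotientGroup.mk' (aeOne 𝒰 G)) k = (QuotientGroup.mk' (aeOne 𝒰 G)) h
    · filter_upwards [(mk_eq_iff 𝒰 G h k).1 hk] with i hi
      exact iff_of_true hk hi
    · have h3 : ∀ᶠ i in (𝒰 : Filter ℕ), ¬ (k i = h i) :=
        Ultrafilter.eventually_not.2 fun h' => hk ((mk_eq_iff 𝒰 G h k).2 h')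
      filter_upwards [h3] with i hi
      exact iff_of_false hk hi
  rw [Filter.eventually_all_finset]
  intro h hh
  rw [Filter.eventually_all_finset]
  exact h2 h hh

/-- the norm of an element of the group ring of the ultraproduct -/
theorem nrm_toU_le (x : MonoidAlgebra ℤ (∀ i, G i)) (s : ℕ)
    (h : ∀ᶠ i in (𝒰 : Filter ℕ), nrm (ev G i x) ≤ s) : nrm (toU 𝒰 G x) ≤ s := by
  obtain ⟨i, h1, h2⟩ := ((same_ident 𝒰 G x).and h).exists
  refine le_trans ?_ h2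
  exact nrm_mapDomain_le _ _ x fun a ha b hb hab => (h1 a ha b hb).2 hab

theorem toU_zero_iff (x : MonoidAlgebra ℤ (∀ i, G i)) :
    toU 𝒰 G x = 0 ↔ ∀ᶠ i in (𝒰 : Filter ℕ), ev G i x = 0 := by
  have h1 : ∀ᶠ i in (𝒰 : Filter ℕ), (toU 𝒰 G x = 0 ↔ ev G i x = 0) := by
    filter_upwards [same_ident 𝒰 G x] with i hi
    exact mapDomain_zero_congr _ _ x hi
  constructor
  · intro h
    filter_upwards [h1] with i hi
    exact hi.1 h
  · intro h
    obtain ⟨i, hi1, hi2⟩ := (h.and h1).exists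
    exact hi2.2 hi1

theorem toU_eq_iff (x y : MonoidAlgebra ℤ (∀ i, G i)) :
    toU 𝒰 G x = toU 𝒰 G y ↔ ∀ᶠ i in (𝒰 : Filter ℕ), ev G i x = ev G i y := by
  rw [← sub_eq_zero, ← map_sub, toU_zero_iff]
  refine eventually_congr (Eventually.of_forall fun i => ?_)
  rw [map_sub, sub_eq_zero]

theorem toU_mat_iff {ι κ : Type} [Finite ι] [Finite κ]
    (A B : Matrix ι κ (MonoidAlgebra ℤ (∀ i, G i))) :
    A.map (toU 𝒰 G) = B.map (toU 𝒰 G) ↔
      ∀ᶠ i in (𝒰 : Filter ℕ), A.map (ev G i) = B.map (ev G i) := by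
  have h1 : ∀ {T : Type} (φ : MonoidAlgebra ℤ (∀ i, G i) → T),
      A.map φ = B.map φ ↔ ∀ p q, φ (A p q) = φ (B p q) := by
    intro T φ
    constructor
    · intro h p q
      exact congrFun (congrFun h p) q
    · intro h
      ext p q
      exact h p q
  simp only [h1]
  rw [Filter.eventually_all]
  refine forall_congr' fun p => ?_
  rw [Filter.eventually_all]
  exact forall_congr' fun q => toU_eq_iff 𝒰 G _ _

/-- lifting elements of bounded norm to the product -/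
theorem lift_elt (s : ℕ) : ∀ x : ∀ i, MonoidAlgebra ℤ (G i), (∀ i, nrm (x i) ≤ s) →
    ∃ y : MonoidAlgebra ℤ (∀ i, G i), ∀ᶠ i in (𝒰 : Filter ℕ), ev G i y = x i := by
  induction s with
  | zero =>
    intro x hx
    refine ⟨0, Eventually.of_forall fun i => ?_⟩
    rw [map_zero, nrm_eq_zero (Nat.le_zero.1 (hx i))]
  | succ s ih =>
    intro x hx
    choose g e he hs hz using fun i => nrm_step (x i)
    obtain ⟨y, hy⟩ := ih (fun i => x i - MonoidAlgebra.single (g i) (e i)) (by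
      intro i
      have h1 := hs i
      have h2 := hx i
      by_cases he0 : e i = 0
      · have := hz i he0
        omega
      · have : (e i).natAbs ≠ 0 := fun h => he0 (Int.natAbs_eq_zero.1 h)
        omega)
    have h1 : ∃ c : ℤ, ∀ᶠ i in (𝒰 : Filter ℕ), e i = c := by
      have h2 : ∀ᶠ i in (𝒰 : Filter ℕ), e i = 0 ∨ e i = 1 ∨ e i = -1 :=
        Eventually.of_forall he
      rw [Ultrafilter.eventually_or, Ultrafilter.eventually_or] at h2
      rcases h2 with h2 | h2 | h2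
      · exact ⟨_, h2⟩
      · exact ⟨_, h2⟩
      · exact ⟨_, h2⟩
    obtain ⟨c, hc⟩ := h1
    refine ⟨y + MonoidAlgebra.single g c, ?_⟩
    filter_upwards [hy, hc] with i h1 h2
    rw [map_add, h1, ev, MonoidAlgebra.mapDomainRingHom_apply, MonoidAlgebra.mapDomain_single, h2]
    exact sub_add_cancel _ _

/-- lifting matrices of bounded norm to the product -/
theorem lift_mat {ι κ : Type} [Finite ι] [Finite κ] (s : ℕ)
    (A : ∀ i, Matrix ι κ (MonoidAlgebra ℤ (G i))) (hA : ∀ i p q, nrm (A i p q) ≤ s) :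
    ∃ B : Matrix ι κ (MonoidAlgebra ℤ (∀ i, G i)),
      ∀ᶠ i in (𝒰 : Filter ℕ), B.map (ev G i) = A i := by
  choose B hB using fun (p : ι) (q : κ) =>
    lift_elt 𝒰 G s (fun i => A i p q) (fun i => hA i p q)
  refine ⟨fun p q => B p q, ?_⟩
  have h1 : ∀ᶠ i in (𝒰 : Filter ℕ), ∀ p q, ev G i (B p q) = A i p q := by
    rw [Filter.eventually_all]
    intro p
    rw [Filter.eventually_all]
    exact fun q => hB p q
  filter_upwards [h1] with i hi
  ext1 p q
  exact hi p q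

/-- the ultraproduct of groups with larger and larger torsion is torsion-free -/
theorem tf_ultra (h𝒰 : (𝒰 : Filter ℕ) ≤ Filter.cofinite)
    (hG : ∀ i, ∀ g : G i, ∀ k : ℕ, 0 < k → k ≤ i → g ^ k = 1 → g = 1)
    (g : (∀ i, G i) ⧸ aeOne 𝒰 G) (hg : IsOfFinOrder g) : g = 1 := by
  obtain ⟨x, rfl⟩ := QuotientGroup.mk'_surjective _ g
  obtain ⟨k, hk, hx⟩ := isOfFinOrder_iff_pow_eq_one.1 hg
  rw [← map_pow, ← map_one (QuotientGroup.mk' (aeOne 𝒰 G)), mk_eq_iff] at hx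
  rw [← map_one (QuotientGroup.mk' (aeOne 𝒰 G)), mk_eq_iff]
  have h1 : ∀ᶠ i in (𝒰 : Filter ℕ), k ≤ i := by
    apply h𝒰
    rw [Nat.cofinite_eq_atTop]
    exact Filter.mem_atTop k
  filter_upwards [hx, h1] with i h2 h3
  exact hG i (x i) k hk h3 h2

end ultra

/-- the norm of a matrix over a group ring -/
def mnrm {G ι κ : Type} [Fintype ι] [Fintype κ] (A : Matrix ι κ (MonoidAlgebra ℤ G)) : ℕ :=
  ∑ i, ∑ j, nrm (A i j)

theorem nrm_le_mnrm {G ι κ : Type} [Fintype ι] [Fintype κ] (A : Matrix ι κ (MonoidAlgebra ℤ G))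
    (i : ι) (j : κ) : nrm (A i j) ≤ mnrm A :=
  (Finset.single_le_sum (f := fun j => nrm (A i j)) (fun _ _ => Nat.zero_le _)
    (Finset.mem_univ j)).trans
    (Finset.single_le_sum (f := fun i => ∑ j, nrm (A i j)) (fun _ _ => Nat.zero_le _)
      (Finset.mem_univ i))

theorem mnrm_map {G H ι κ : Type} [Group G] [Group H] [Fintype ι] [Fintype κ] (f : G →* H)
    (A : Matrix ι κ (MonoidAlgebra ℤ G)) :
    mnrm (A.map (MonoidAlgebra.mapDomainRingHom ℤ f)) ≤ mnrm A := by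
  refine Finset.sum_le_sum fun i _ => Finset.sum_le_sum fun j _ => ?_
  exact nrm_mapDomain f (A i j)

theorem mat_surj {G H ι κ : Type} [Group G] [Group H] (f : G →* H) (hf : Function.Surjective f)
    (A : Matrix ι κ (MonoidAlgebra ℤ H)) :
    ∃ B : Matrix ι κ (MonoidAlgebra ℤ G), B.map (MonoidAlgebra.mapDomainRingHom ℤ f) = A := by
  choose B hB using fun (i : ι) (j : κ) => mapDomain_surj hf (A i j)
  exact ⟨fun i j => B i j, by ext1 i j; exact hB i j⟩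

/-- the norm of a matrix over the group ring of the ultraproduct -/
theorem mnrm_toU_le (𝒰 : Ultrafilter ℕ) (G : ℕ → Type) [∀ i, Group (G i)] {ι κ : Type}
    [Fintype ι] [Fintype κ] (A : Matrix ι κ (MonoidAlgebra ℤ (∀ i, G i))) (s : ℕ)
    (h : ∀ᶠ i in (𝒰 : Filter ℕ), mnrm (A.map (ev G i)) ≤ s) : mnrm (A.map (toU 𝒰 G)) ≤ s := by
  have h1 : ∀ᶠ i in (𝒰 : Filter ℕ), ∀ p q, nrm (toU 𝒰 G (A p q)) ≤ nrm (ev G i (A p q)) := by
    rw [Filter.eventually_all]
    intro p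
    rw [Filter.eventually_all]
    intro q
    filter_upwards [same_ident 𝒰 G (A p q)] with i hi
    exact nrm_mapDomain_le _ _ (A p q) fun a ha b hb hab => (hi a ha b hb).2 hab
  obtain ⟨i, h2, h3⟩ := (h1.and h).exists
  refine le_trans ?_ h3
  exact Finset.sum_le_sum fun p _ => Finset.sum_le_sum fun q _ => h2 p q

/-- The compactness theorem: uniform bounds for the groups without small torsion. -/
theorem uniform (𝒞 : ∀ G : Type, Group G → Prop) (𝒰 : Ultrafilter ℕ)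
    (h𝒰 : (𝒰 : Filter ℕ) ≤ Filter.cofinite)
    (h𝒞 : ∀ (G : ℕ → Type) (inst : ∀ i, Group (G i)), (∀ i, 𝒞 (G i) (inst i)) →
      𝒞 ((∀ i, G i) ⧸ aeOne 𝒰 G) inferInstance)
    (n s : ℕ)
    (h : ∀ (G : Type) (inst : Group G), 𝒞 G inst → (∀ g : G, IsOfFinOrder g → g = 1) →
      ∀ (E : Matrix (Fin n) (Fin n) (MonoidAlgebra ℤ G)), E * E = E → mnrm E ≤ s → Sf E) :
    ∃ N : ℕ, ∀ (G : Type) (inst : Group G), 𝒞 G inst →
      (∀ g : G, ∀ k : ℕ, 0 < k → k ≤ N → g ^ k = 1 → g = 1) →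
      ∀ E : Matrix (Fin n) (Fin n) (MonoidAlgebra ℤ G), E * E = E → mnrm E ≤ s →
      ∃ a ≤ N, ∃ b ≤ N, ∃ (U : Matrix (Fin n ⊕ Fin a) (Fin b) (MonoidAlgebra ℤ G))
        (V : Matrix (Fin b) (Fin n ⊕ Fin a) (MonoidAlgebra ℤ G)),
        mnrm U ≤ N ∧ mnrm V ≤ N ∧ U * V = fromBlocks E 0 0 1 ∧ V * U = 1 := by
  by_contra hcon
  push Not at hcon
  choose G inst hG htf E hE hs hbad using hcon
  obtain ⟨Eh, hEh⟩ := lift_mat 𝒰 G s E fun i p q => (nrm_le_mnrm (E i) p q).trans (hs i)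
  have hidem : Eh.map (toU 𝒰 G) * Eh.map (toU 𝒰 G) = Eh.map (toU 𝒰 G) := by
    rw [← Matrix.map_mul, toU_mat_iff]
    filter_upwards [hEh] with i hi
    rw [Matrix.map_mul, hi, hE]
  have hnorm : mnrm (Eh.map (toU 𝒰 G)) ≤ s := by
    apply mnrm_toU_le
    filter_upwards [hEh] with i hi
    rw [hi]
    exact hs i
  obtain ⟨a, b, U, V, hUV, hVU⟩ := h _ inferInstance (h𝒞 G inst hG) (tf_ultra 𝒰 G h𝒰 htf)
    (Eh.map (toU 𝒰 G)) hidem hnorm
  obtain ⟨Uh, hUh⟩ := mat_surj (QuotientGroup.mk' (aeOne 𝒰 G)) (QuotientGroup.mk'_surjective _) U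
  obtain ⟨Vh, hVh⟩ := mat_surj (QuotientGroup.mk' (aeOne 𝒰 G)) (QuotientGroup.mk'_surjective _) V
  have h1 : ∀ᶠ i in (𝒰 : Filter ℕ), (Uh * Vh).map (ev G i)
      = (fromBlocks Eh 0 0 1 : Matrix (Fin n ⊕ Fin a) (Fin n ⊕ Fin a) _).map (ev G i) := by
    rw [← toU_mat_iff, Matrix.map_mul, Matrix.fromBlocks_map]
    change Uh.map (MonoidAlgebra.mapDomainRingHom ℤ (QuotientGroup.mk' (aeOne 𝒰 G)))
      * Vh.map (MonoidAlgebra.mapDomainRingHom ℤ (QuotientGroup.mk' (aeOne 𝒰 G))) = _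
    rw [hUh, hVh, hUV]
    simp
  have h2 : ∀ᶠ i in (𝒰 : Filter ℕ), (Vh * Uh).map (ev G i)
      = (1 : Matrix (Fin b) (Fin b) _).map (ev G i) := by
    rw [← toU_mat_iff, Matrix.map_mul]
    change Vh.map (MonoidAlgebra.mapDomainRingHom ℤ (QuotientGroup.mk' (aeOne 𝒰 G)))
      * Uh.map (MonoidAlgebra.mapDomainRingHom ℤ (QuotientGroup.mk' (aeOne 𝒰 G))) = _
    rw [hUh, hVh, hVU]
    simp
  have h3 : ∀ᶠ i in (𝒰 : Filter ℕ), a + b + mnrm Uh + mnrm Vh ≤ i := by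
    apply h𝒰
    rw [Nat.cofinite_eq_atTop]
    exact Filter.mem_atTop _
  obtain ⟨i, hi1, hi2, hi3, hi4⟩ := (h1.and (h2.and (h3.and hEh))).exists
  rw [Matrix.map_mul, Matrix.fromBlocks_map, hi4] at hi1
  rw [Matrix.map_mul] at hi2
  refine hbad i a (by omega) b (by omega) (Uh.map (ev G i)) (Vh.map (ev G i)) ?_ ?_ ?_ ?_
  · exact (mnrm_map _ _).trans (by omega)
  · exact (mnrm_map _ _).trans (by omega)
  · rw [hi1]
    simp
  · rw [hi2]
    simp

end Pool.Agent.K6.H28.SF
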