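import Mathlib

set_option autoImplicit false

/-! # Group rings: norms, kernels of maps between group rings -/

namespace Pool.Agent.K6.H28.SF

open MonoidAlgebra

variable {G H K : Type}

/-- the `ℓ¹`-norm of an element of a group ring `ℤG` -/
def nrm (x : MonoidAlgebra ℤ G) : ℕ := ∑ g ∈ x.coeff.support, (x.coeff g).natAbs

theorem nrm_eq (x : MonoidAlgebra ℤ G) (S : Finset G) (hS : x.coeff.support ⊆ S) :
    nrm x = ∑ g ∈ S, (x.coeff g).natAbs := by
  refine Finset.sum_subset hS fun g _ hg => ?_
  rw [Finsupp.notMem_support_iff.1 hg]; rfl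

theorem nrm_add (x y : MonoidAlgebra ℤ G) : nrm (x + y) ≤ nrm x + nrm y := by
  classical
  rw [nrm_eq x (x.coeff.support ∪ y.coeff.support) Finset.subset_union_left,
    nrm_eq y (x.coeff.support ∪ y.coeff.support) Finset.subset_union_right,
    nrm_eq (x + y) (x.coeff.support ∪ y.coeff.support) (by
      rw [MonoidAlgebra.coeff_add]; exact Finsupp.support_add),
    ← Finset.sum_add_distrib]
  refine Finset.sum_le_sum fun g _ => ?_
  rw [MonoidAlgebra.coeff_add, Finsupp.add_apply]
  exact Int.natAbs_add_le _ _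

theorem nrm_zero : nrm (0 : MonoidAlgebra ℤ G) = 0 := by simp [nrm]

theorem nrm_single (g : G) (c : ℤ) : nrm (MonoidAlgebra.single g c) = c.natAbs := by
  classical
  rw [nrm_eq _ {g} (by
    rw [MonoidAlgebra.coeff_single]; exact Finsupp.support_single_subset)]
  simp

theorem nrm_eq_zero {x : MonoidAlgebra ℤ G} (h : nrm x = 0) : x = 0 := by
  ext g
  by_contra hg
  have h1 : g ∈ x.coeff.support := Finsupp.mem_support_iff.2 hg
  have := (Finset.sum_eq_zero_iff.1 h) g h1
  exact hg (Int.natAbs_eq_zero.1 this)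

theorem nrm_sum {ι : Type} (s : Finset ι) (f : ι → MonoidAlgebra ℤ G) :
    nrm (∑ i ∈ s, f i) ≤ ∑ i ∈ s, nrm (f i) := by
  classical
  induction s using Finset.induction_on with
  | empty => simp [nrm_zero]
  | insert a s ha ih =>
    rw [Finset.sum_insert ha, Finset.sum_insert ha]
    exact (nrm_add _ _).trans (Nat.add_le_add_left ih _)

theorem nrm_mapDomain (f : G → H) (x : MonoidAlgebra ℤ G) :
    nrm (MonoidAlgebra.mapDomain f x) ≤ nrm x := by
  have h1 : MonoidAlgebra.mapDomain f x
      = ∑ g ∈ x.coeff.support, MonoidAlgebra.single (f g) (x.coeff g) := by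
    ext h
    rw [MonoidAlgebra.mapDomain, MonoidAlgebra.coeff_sum, Finsupp.mapDomain, Finsupp.sum]
    simp
  rw [h1]
  refine (nrm_sum _ _).trans ?_
  simp only [nrm_single]
  exact le_rfl

/-- one step of the decomposition into signed group elements -/
theorem nrm_step [Nonempty G] (x : MonoidAlgebra ℤ G) :
    ∃ (g : G) (e : ℤ), (e = 0 ∨ e = 1 ∨ e = -1) ∧
      nrm (x - MonoidAlgebra.single g e) + e.natAbs = nrm x ∧ (e = 0 → nrm x = 0) := by
  classical
  by_cases hx : x.coeff.support.Nonempty
  · obtain ⟨g, hg⟩ := hx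
    have hg0 : x.coeff g ≠ 0 := Finsupp.mem_support_iff.1 hg
    have key : ∀ e : ℤ, (x.coeff g - e).natAbs + 1 = (x.coeff g).natAbs →
        nrm (x - MonoidAlgebra.single g e) + 1 = nrm x := by
      intro e he
      have h1 : nrm (x - MonoidAlgebra.single g e)
          = ∑ k ∈ x.coeff.support, ((x - MonoidAlgebra.single g e).coeff k).natAbs := by
        apply nrm_eq
        intro k hk
        rw [Finsupp.mem_support_iff] at hk ⊢
        intro hk0
        apply hk
        by_cases hkg : k = g
        · exact absurd (hkg ▸ hk0) hg0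
        · rw [MonoidAlgebra.coeff_sub, Finsupp.sub_apply, hk0, MonoidAlgebra.coeff_single,
            Finsupp.single_eq_of_ne hkg]
          rfl
      have h2 : nrm x = (x.coeff g).natAbs + ∑ k ∈ x.coeff.support.erase g, (x.coeff k).natAbs :=
        (Finset.add_sum_erase _ _ hg).symm
      have h3 : nrm (x - MonoidAlgebra.single g e)
          = (x.coeff g - e).natAbs + ∑ k ∈ x.coeff.support.erase g, (x.coeff k).natAbs := by
        rw [h1, ← Finset.add_sum_erase _ _ hg]
        congr 1
        · rw [MonoidAlgebra.coeff_sub, Finsupp.sub_apply, MonoidAlgebra.coeff_single,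
            Finsupp.single_eq_same]
        · refine Finset.sum_congr rfl fun k hk => ?_
          rw [MonoidAlgebra.coeff_sub, Finsupp.sub_apply, MonoidAlgebra.coeff_single,
            Finsupp.single_eq_of_ne (Finset.ne_of_mem_erase hk), sub_zero]
      omega
    rcases lt_or_gt_of_ne hg0 with h1 | h1
    · exact ⟨g, -1, Or.inr (Or.inr rfl), key _ (by omega), fun h => absurd h (by norm_num)⟩
    · exact ⟨g, 1, Or.inr (Or.inl rfl), key _ (by omega), fun h => absurd h (by norm_num)⟩
  · have hx0 : x = 0 := by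
      rw [Finset.not_nonempty_iff_eq_empty, Finsupp.support_eq_empty] at hx
      ext g
      rw [hx]; rfl
    refine ⟨Classical.arbitrary G, 0, Or.inl rfl, ?_, fun _ => ?_⟩
    · rw [hx0, MonoidAlgebra.single_zero, sub_zero, nrm_zero]
      rfl
    · rw [hx0, nrm_zero]

/-- an element of norm at most `s` is a sum of `s` group elements with coefficients `0`, `1`,
`-1` -/
theorem exists_terms [Nonempty G] : ∀ (s : ℕ) (x : MonoidAlgebra ℤ G), nrm x ≤ s →
    ∃ (g : Fin s → G) (e : Fin s → ℤ), (∀ t, e t = 0 ∨ e t = 1 ∨ e t = -1) ∧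
      x = ∑ t, MonoidAlgebra.single (g t) (e t) ∧ ∑ t, (e t).natAbs ≤ nrm x := by
  intro s
  induction s with
  | zero =>
    intro x hx
    refine ⟨fun t => t.elim0, fun t => t.elim0, fun t => t.elim0, ?_, ?_⟩
    · rw [nrm_eq_zero (Nat.le_zero.1 hx)]
      simp
    · simp
  | succ s ih =>
    intro x hx
    obtain ⟨g0, e0, h0, h1, h2⟩ := nrm_step x
    obtain ⟨g, e, h3, h4, h5⟩ := ih (x - MonoidAlgebra.single g0 e0) (by
      by_cases he : e0 = 0
      · have := h2 he
        omega
      · have : e0.natAbs ≠ 0 := fun h => he (Int.natAbs_eq_zero.1 h)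
        omega)
    refine ⟨Fin.cons g0 g, Fin.cons e0 e, ?_, ?_, ?_⟩
    · intro t
      refine Fin.cases ?_ (fun t => ?_) t
      · simpa using h0
      · simpa using h3 t
    · rw [Fin.sum_univ_succ]
      simp only [Fin.cons_zero, Fin.cons_succ]
      rw [← h4]
      exact (add_sub_cancel _ _).symm
    · rw [Fin.sum_univ_succ]
      simp only [Fin.cons_zero, Fin.cons_succ]
      omega

/-- vanishing of the image of an element, in terms of class sums -/
theorem mapDomain_eq_zero_iff [DecidableEq H] (f : G → H) (x : MonoidAlgebra ℤ G) :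
    MonoidAlgebra.mapDomain f x = 0 ↔
      ∀ h ∈ x.coeff.support, ∑ k ∈ x.coeff.support with f k = f h, x.coeff k = 0 := by
  have h1 : ∀ a, (MonoidAlgebra.mapDomain f x).coeff a
      = ∑ k ∈ x.coeff.support with f k = a, x.coeff k := by
    intro a
    rw [MonoidAlgebra.mapDomain, Finsupp.mapDomain, Finsupp.sum, Finset.sum_filter]
    simp [Finsupp.single_apply]
  constructor
  · intro h k _
    rw [← h1, h]; rfl
  · intro h
    ext a
    rw [h1]
    by_cases ha : ∃ k ∈ x.coeff.support, f k = a
    · obtain ⟨k, hk, rfl⟩ := ha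
      rw [h k hk]; rfl
    · push Not at ha
      rw [Finset.filter_false_of_mem (fun k hk => ha k hk)]
      rfl

/-- the vanishing of the image depends only on the identifications on the support -/
theorem mapDomain_zero_congr (f : G → H) (g : G → K) (x : MonoidAlgebra ℤ G)
    (hfg : ∀ h ∈ x.coeff.support, ∀ k ∈ x.coeff.support, (f k = f h ↔ g k = g h)) :
    MonoidAlgebra.mapDomain f x = 0 ↔ MonoidAlgebra.mapDomain g x = 0 := by
  classical
  rw [mapDomain_eq_zero_iff, mapDomain_eq_zero_iff]
  refine forall₂_congr fun h hh => ?_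
  rw [Finset.filter_congr fun k hk => hfg h hh k hk]

/-- the norm of the image only depends on the identifications on the support -/
theorem nrm_mapDomain_le [Nonempty K] (f : G → H) (g : G → K) (x : MonoidAlgebra ℤ G)
    (hfg : ∀ h ∈ x.coeff.support, ∀ k ∈ x.coeff.support, f k = f h → g k = g h) :
    nrm (MonoidAlgebra.mapDomain g x) ≤ nrm (MonoidAlgebra.mapDomain f x) := by
  classical
  let θ : H → K := fun a => if h : ∃ k ∈ x.coeff.support, f k = a then g h.choose
    else Classical.arbitrary K
  have hθ : ∀ k ∈ x.coeff.support, θ (f k) = g k := by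
    intro k hk
    have h1 : ∃ k' ∈ x.coeff.support, f k' = f k := ⟨k, hk, rfl⟩
    simp only [θ]
    rw [dif_pos h1]
    exact hfg k hk _ h1.choose_spec.1 h1.choose_spec.2
  have h1 : MonoidAlgebra.mapDomain g x
      = MonoidAlgebra.mapDomain θ (MonoidAlgebra.mapDomain f x) := by
    have h2 : Finsupp.mapDomain g x.coeff = Finsupp.mapDomain θ (Finsupp.mapDomain f x.coeff) := by
      rw [← Finsupp.mapDomain_comp]
      exact (Finsupp.mapDomain_congr hθ).symm
    ext a
    exact congrArg (fun v : K →₀ ℤ => v a) h2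
  rw [h1]
  exact nrm_mapDomain θ _

theorem mapDomain_surj {f : G → H} (hf : Function.Surjective f) (y : MonoidAlgebra ℤ H) :
    ∃ x : MonoidAlgebra ℤ G, MonoidAlgebra.mapDomain f x = y := by
  obtain ⟨x, hx⟩ := Finsupp.mapDomain_surjective (M := ℤ) hf y.coeff
  refine ⟨.ofCoeff x, ?_⟩
  ext a
  rw [MonoidAlgebra.mapDomain, ← hx]

end Pool.Agent.K6.H28.SF
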