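import Pool.Agent.K6.H28.SF.Seq

set_option autoImplicit false
set_option linter.unusedSectionVars false

/-! # Group rings of extensions by the integers inherit finite free resolutions -/

namespace Pool.Agent.K6.H28.SF

open Multiplicative

/-- noetherian, and all finitely generated modules have finite free resolutions -/
def Reg (R : Type) [Ring R] : Prop :=
  IsNoetherianRing R ∧ ∀ (M : Type) [AddCommGroup M] [Module R M], Module.Finite R M →
    ∃ n, FR R n M

section reg

variable {G : Type} [Group G] {d : G →* Multiplicative ℤ} {t : G} {M : Type} [AddCommGroup M]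
  [Module (MonoidAlgebra ℤ G) M] {κ : Type} [Fintype κ]

/-- vectors over the group ring which are relations, with degrees in `J` -/
def RJ (t : G) (d : G →* Multiplicative ℤ) (m0 : κ → M) (J : Set ℤ) :
    AddSubgroup (κ → MonoidAlgebra ℤ G) where
  carrier := {x | (∀ j, x j ∈ InD d t J) ∧ ∑ j, x j • m0 j = 0}
  add_mem' := by
    rintro x y ⟨hx, hx'⟩ ⟨hy, hy'⟩
    refine ⟨fun j => (InD d t J).add_mem (hx j) (hy j), ?_⟩
    have h1 : ∑ j, (x + y) j • m0 j = ∑ j, x j • m0 j + ∑ j, y j • m0 j := by
      rw [← Finset.sum_add_distrib]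
      exact Finset.sum_congr rfl fun j _ => add_smul _ _ _
    rw [h1, hx', hy', add_zero]
  zero_mem' := ⟨fun _ => (InD d t J).zero_mem, by simp⟩
  neg_mem' := by
    rintro x ⟨hx, hx'⟩
    refine ⟨fun j => (InD d t J).neg_mem (hx j), ?_⟩
    have h1 : ∑ j, (-x) j • m0 j = -∑ j, x j • m0 j := by
      rw [← Finset.sum_neg_distrib]
      exact Finset.sum_congr rfl fun j _ => neg_smul _ _
    rw [h1, hx', neg_zero]

theorem mid_rel (ht : dg d t = 1) [IsNoetherianRing (MonoidAlgebra ℤ G)] (m0 : κ → M) :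
    ∃ n0 : ℕ, ∀ x : κ → MonoidAlgebra ℤ G, ∑ j, x j • m0 j = 0 →
      x ∈ RJ t d m0 (Set.Ici 0) ⊔ RJ t d m0 (Set.Iic (n0 : ℤ)) := by
  classical
  let T : Submodule (MonoidAlgebra ℤ G) (κ → MonoidAlgebra ℤ G) :=
    LinearMap.ker (Fintype.linearCombination (MonoidAlgebra ℤ G) m0)
  have hT : ∀ x, x ∈ T ↔ ∑ j, x j • m0 j = 0 := fun x => by
    rw [LinearMap.mem_ker, Fintype.linearCombination_apply]
  obtain ⟨Y, hY⟩ := IsNoetherian.noetherian T
  -- bounded degrees
  have hb : ∃ b : ℕ, ∀ y ∈ Y, ∀ j, y j ∈ InD d t (Set.Icc (-(b : ℤ)) b) := by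
    choose I hI using fun x : MonoidAlgebra ℤ G => cmp_finite (d := d) (t := t) ht x
    let IJ : Finset ℤ := Y.biUnion fun y => Finset.univ.biUnion fun j => I (y j)
    refine ⟨IJ.sup fun i => i.natAbs, fun y hy j i hi => ?_⟩
    apply hI
    intro h
    apply hi
    have h1 : i ∈ IJ := by
      simp only [IJ, Finset.mem_biUnion]
      exact ⟨y, hy, j, Finset.mem_univ _, h⟩
    have h2 : i.natAbs ≤ IJ.sup fun i => i.natAbs := Finset.le_sup (f := fun i : ℤ => i.natAbs) h1
    rw [Set.mem_Icc]
    omega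
  obtain ⟨b, hb⟩ := hb
  refine ⟨2 * b, fun x hx => ?_⟩
  set S := RJ t d m0 (Set.Ici 0) ⊔ RJ t d m0 (Set.Iic ((2 * b : ℕ) : ℤ)) with hS
  have key : ∀ y ∈ Y, ∀ z : MonoidAlgebra ℤ G, z • y ∈ S := by
    intro y hy z
    have hyT : ∑ j, y j • m0 j = 0 := (hT y).1 (by rw [← hY]; exact Submodule.subset_span hy)
    induction z using MonoidAlgebra.induction_linear with
    | zero => rw [zero_smul]; exact S.zero_mem
    | add z z' h1 h2 => rw [add_smul]; exact S.add_mem h1 h2
    | single g c =>
      have h1 : (MonoidAlgebra.single g c : MonoidAlgebra ℤ G) = c • MonoidAlgebra.single g 1 := by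
        rw [MonoidAlgebra.smul_single, smul_eq_mul, mul_one]
      rw [h1, smul_assoc]
      apply S.zsmul_mem
      have h2 : ∑ j, ((MonoidAlgebra.single g 1 : MonoidAlgebra ℤ G) • y) j • m0 j = 0 := by
        have : ∑ j, ((MonoidAlgebra.single g 1 : MonoidAlgebra ℤ G) • y) j • m0 j
            = (MonoidAlgebra.single g 1 : MonoidAlgebra ℤ G) • ∑ j, y j • m0 j := by
          rw [Finset.smul_sum]
          refine Finset.sum_congr rfl fun j _ => ?_
          rw [Pi.smul_apply, smul_eq_mul, mul_smul]
        rw [this, hyT, smul_zero]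
      rcases le_total (b : ℤ) (dg d g) with h3 | h3
      · refine AddSubgroup.mem_sup_left ⟨fun j => ?_, h2⟩
        apply single_mul_InD ht g _ (hb y hy j)
        intro i hi
        rw [Set.mem_Icc] at hi
        rw [Set.mem_Ici]
        omega
      · refine AddSubgroup.mem_sup_right ⟨fun j => ?_, h2⟩
        apply single_mul_InD ht g _ (hb y hy j)
        intro i hi
        rw [Set.mem_Icc] at hi
        rw [Set.mem_Iic]
        push_cast
        omega
  have h3 : ∀ v ∈ Submodule.span (MonoidAlgebra ℤ G) (Y : Set (κ → MonoidAlgebra ℤ G)),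
      ∀ z : MonoidAlgebra ℤ G, z • v ∈ S := by
    intro v hv
    induction hv using Submodule.span_induction with
    | mem y hy => exact key y hy
    | zero => intro z; rw [smul_zero]; exact S.zero_mem
    | add v w _ _ h1 h2 => intro z; rw [smul_add]; exact S.add_mem (h1 z) (h2 z)
    | smul a v _ h1 => intro z; rw [← mul_smul]; exact h1 _
  have h4 := h3 x (by rw [hY]; exact (hT x).2 hx) 1
  rwa [one_smul] at h4

/-- the intersection property -/
theorem mid_MJ (ht : dg d t = 1) [IsNoetherianRing (MonoidAlgebra ℤ G)] (m0 : κ → M) :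
    ∃ n0 : ℕ, ∀ n : ℕ, n0 ≤ n → ∀ (i : ℤ) (m : M), m ∈ MJ d t m0 (Set.Ici i) →
      m ∈ MJ d t m0 (Set.Iic (i + n)) → m ∈ MJ d t m0 (Set.Icc i (i + n)) := by
  obtain ⟨n0, hn0⟩ := mid_rel (d := d) ht m0
  refine ⟨n0, fun n hn => ?_⟩
  have key : ∀ m : M, m ∈ MJ d t m0 (Set.Ici 0) → m ∈ MJ d t m0 (Set.Iic (n : ℤ)) →
      m ∈ MJ d t m0 (Set.Icc 0 (n : ℤ)) := by
    rintro m ⟨u, hu, hmu⟩ ⟨w, hw, hmw⟩
    have h1 : ∑ j, (u - w) j • m0 j = 0 := by
      have : ∑ j, (u - w) j • m0 j = ∑ j, u j • m0 j - ∑ j, w j • m0 j := by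
        rw [← Finset.sum_sub_distrib]
        exact Finset.sum_congr rfl fun j _ => sub_smul _ _ _
      rw [this, ← hmu, ← hmw, sub_self]
    obtain ⟨p, ⟨hp, hp'⟩, q, ⟨hq, hq'⟩, hpq⟩ := AddSubgroup.mem_sup.1 (hn0 _ h1)
    refine ⟨u - p, fun j => ?_, ?_⟩
    · have h2 : (u - p) j ∈ InD d t (Set.Ici 0) := (InD d t _).sub_mem (hu j) (hp j)
      have h3 : (u - p) j ∈ InD d t (Set.Iic (n : ℤ)) := by
        have h4 : (u - p) j = w j + q j := by
          have := congrFun hpq j
          rw [Pi.add_apply, Pi.sub_apply] at this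
          rw [Pi.sub_apply]
          have h5 : u j = p j + q j + w j := by rw [this]; abel
          rw [h5]; abel
        rw [h4]
        refine (InD d t _).add_mem (hw j) (InD_mono ?_ (hq j))
        intro i hi
        rw [Set.mem_Iic] at *
        omega
      intro i hi
      rw [Set.mem_Icc, not_and_or] at hi
      rcases hi with hi | hi
      · exact h2 i hi
      · exact h3 i hi
    · have : ∑ j, (u - p) j • m0 j = ∑ j, u j • m0 j - ∑ j, p j • m0 j := by
        rw [← Finset.sum_sub_distrib]
        exact Finset.sum_congr rfl fun j _ => sub_smul _ _ _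
      rw [this, hp', sub_zero, hmu]
  intro i m h1 h2
  have h3 : (MonoidAlgebra.single (t ^ (-i)) 1 : MonoidAlgebra ℤ G) • m
      ∈ MJ d t m0 (Set.Icc 0 (n : ℤ)) := by
    apply key
    · apply single_smul_MJ ht m0 _ _ h1
      intro j hj
      rw [dg_zpow, ht, Set.mem_Ici] at *
      omega
    · apply single_smul_MJ ht m0 _ _ h2
      intro j hj
      rw [dg_zpow, ht, Set.mem_Iic] at *
      omega
  have h4 : m = (MonoidAlgebra.single (t ^ i) 1 : MonoidAlgebra ℤ G) •
      ((MonoidAlgebra.single (t ^ (-i)) 1 : MonoidAlgebra ℤ G) • m) := by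
    rw [← mul_smul, tpow_mul_tpow, add_neg_cancel, tpow_zero, one_smul]
  rw [h4]
  apply single_smul_MJ ht m0 _ _ h3
  intro j hj
  rw [dg_zpow, ht, Set.mem_Icc] at *
  omega

/-- the exact sequence `0 → D(n) → D(n+1) → M → 0` and its consequence -/
theorem FR_of_pieces (ht : dg d t = 1) [IsNoetherianRing (MonoidAlgebra ℤ G)]
    (hreg : ∀ (ι : Type) [Fintype ι] (K : Submodule (MonoidAlgebra ℤ d.ker) (ι → MonoidAlgebra ℤ d.ker)),
      ∃ n, FR (MonoidAlgebra ℤ d.ker) n K)
    (m0 : κ → M) (hm0 : ∀ m : M, ∃ x : κ → MonoidAlgebra ℤ G, m = ∑ j, x j • m0 j) :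
    ∃ c, FR (MonoidAlgebra ℤ G) c M := by
  classical
  obtain ⟨n, hn⟩ := mid_MJ (d := d) ht m0
  obtain ⟨a, ha⟩ := FR_Dn ht hreg m0 n
  obtain ⟨b, hb⟩ := FR_Dn ht hreg m0 (n + 1)
  have hdl : ∀ f ∈ Dn ht m0 (n : ℤ), dl d M f ∈ Dn ht m0 ((n + 1 : ℕ) : ℤ) := by
    intro f hf i
    have h1 := (mem_Dn ht m0 _ f).1 hf
    change evD d i (dl d M f) ∈ MJ d t m0 (Set.Icc i (i + ((n + 1 : ℕ) : ℤ)))
    rw [evD_dl]
    refine AddSubgroup.sub_mem _ (MJ_mono m0 ?_ (h1 i)) (MJ_mono m0 ?_ (h1 (i + 1)))
    · intro j hj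
      rw [Set.mem_Icc] at *
      push_cast
      omega
    · intro j hj
      rw [Set.mem_Icc] at *
      push_cast
      omega
  let f : Dn ht m0 (n : ℤ) →ₗ[MonoidAlgebra ℤ G] Dn ht m0 ((n + 1 : ℕ) : ℤ) :=
    (dl d M).restrict hdl
  let g : Dn ht m0 ((n + 1 : ℕ) : ℤ) →ₗ[MonoidAlgebra ℤ G] M := (sg d M) ∘ₗ Submodule.subtype _
  refine FR_quot f g ?_ ?_ ?_ ha hb
  · intro x y hxy
    apply Subtype.ext
    exact (dl_injective : Function.Injective (dl d M)) (congrArg Subtype.val hxy)
  · have hr : LinearMap.range g = ⊤ := by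
      rw [eq_top_iff]
      rintro m -
      obtain ⟨x, rfl⟩ := hm0 m
      refine Submodule.sum_mem _ fun j _ => Submodule.smul_mem _ _ ?_
      have hpt : pt d 0 (m0 j) ∈ Dn ht m0 ((n + 1 : ℕ) : ℤ) := ?_
      · exact ⟨⟨pt d 0 (m0 j), hpt⟩, sg_pt (d := d) 0 (m0 j)⟩
      intro i
      change evD d i (pt d 0 (m0 j)) ∈ MJ d t m0 (Set.Icc i (i + ((n + 1 : ℕ) : ℤ)))
      rw [evD_pt]
      split_ifs with h
      · refine ⟨fun j' => if j' = j then 1 else 0, fun j' => ?_, ?_⟩
        · dsimp only
          split_ifs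
          · have h1 : (1 : MonoidAlgebra ℤ G) ∈ InD d t {0} := by
              have := incl_mem_InD (t := t) ht (1 : MonoidAlgebra ℤ d.ker)
              rwa [map_one] at this
            refine InD_mono ?_ h1
            intro z hz
            rw [Set.mem_singleton_iff] at hz
            rw [Set.mem_Icc]
            push_cast
            omega
          · exact (InD d t _).zero_mem
        · simp
      · exact AddSubgroup.zero_mem _
    exact LinearMap.range_eq_top.1 hr
  · rintro ⟨y, hy⟩
    constructor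
    · intro h
      have hy' := (mem_Dn ht m0 _ y).1 hy
      obtain ⟨I, hI⟩ := Dm_fin y
      have hsum : ∑ i ∈ I, evD d i y = 0 := by
        rw [← sg_eq y I hI]
        exact h
      obtain ⟨lo, hlo⟩ : ∃ lo : ℤ, ∀ i ∈ I, lo ≤ i := by
        refine ⟨-((I.sup fun i => i.natAbs : ℕ) : ℤ), fun i hi => ?_⟩
        have : i.natAbs ≤ I.sup fun i => i.natAbs := Finset.le_sup (f := fun i : ℤ => i.natAbs) hi
        omega
      let F : Dm d M := ∑ j ∈ I, ∑ i ∈ Finset.Icc lo j, pt d i (evD d j y)
      have hF : ∀ i, evD d i F = ∑ j ∈ I, if i ≤ j then evD d j y else 0 := by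
        intro i
        have h1 : evD d i F = ∑ j ∈ I, if lo ≤ i ∧ i ≤ j then evD d j y else 0 := by
          simp only [F]
          rw [map_sum]
          refine Finset.sum_congr rfl fun j _ => ?_
          rw [map_sum]
          simp only [evD_pt]
          rw [Finset.sum_ite_eq']
          simp only [Finset.mem_Icc]
        rw [h1]
        by_cases h2 : lo ≤ i
        · refine Finset.sum_congr rfl fun j _ => ?_
          simp only [h2, true_and]
        · have h3 : ∀ j ∈ I, (if i ≤ j then evD d j y else 0) = evD d j y := fun j hj =>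
            if_pos (by have := hlo j hj; omega)
          rw [Finset.sum_congr rfl h3, hsum]
          refine Finset.sum_eq_zero fun j _ => if_neg fun h => h2 h.1
      have hFmem : F ∈ Dn ht m0 (n : ℤ) := by
        intro i
        change evD d i F ∈ MJ d t m0 (Set.Icc i (i + (n : ℤ)))
        apply hn n le_rfl
        · rw [hF]
          refine AddSubgroup.sum_mem _ fun j _ => ?_
          split_ifs with h1
          · refine MJ_mono m0 ?_ (hy' j)
            intro z hz
            rw [Set.mem_Icc] at hz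
            rw [Set.mem_Ici]
            omega
          · exact AddSubgroup.zero_mem _
        · have h2 : evD d i F = -∑ j ∈ I, if i ≤ j then 0 else evD d j y := by
            rw [hF, eq_neg_iff_add_eq_zero, ← Finset.sum_add_distrib]
            refine (Finset.sum_congr rfl fun j _ => ?_).trans hsum
            split_ifs <;> simp
          rw [h2]
          refine AddSubgroup.neg_mem _ (AddSubgroup.sum_mem _ fun j _ => ?_)
          split_ifs with h1
          · exact AddSubgroup.zero_mem _
          · refine MJ_mono m0 ?_ (hy' j)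
            intro z hz
            rw [Set.mem_Icc] at hz
            push_cast at hz
            rw [Set.mem_Iic]
            omega
      refine ⟨⟨F, hFmem⟩, ?_⟩
      apply Subtype.ext
      change dl d M F = y
      apply Dm_ext
      intro i
      rw [evD_dl, hF, hF, ← Finset.sum_sub_distrib]
      have h1 : ∀ j ∈ I, ((if i ≤ j then evD d j y else 0) - if i + 1 ≤ j then evD d j y else 0)
          = if i = j then evD d j y else 0 := by
        intro j _
        rcases lt_trichotomy i j with h | h | h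
        · rw [if_pos (by omega), if_pos (by omega), if_neg (by omega), sub_self]
        · rw [if_pos (by omega), if_neg (by omega), if_pos h, sub_zero]
        · rw [if_neg (by omega), if_neg (by omega), if_neg (by omega), sub_self]
      rw [Finset.sum_congr rfl h1, Finset.sum_ite_eq]
      split_ifs with h
      · rfl
      · exact (hI i h).symm
    · rintro ⟨x, hx⟩
      have h1 : dl d M x.1 = y := congrArg Subtype.val hx
      change sg d M y = 0
      rw [← h1]
      -- the sum of a difference is zero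
      have h2 : ∀ z : Dm d M, sg d M (dl d M z) = 0 := by
        intro z
        refine Dm_induction (P := fun z => sg d M (dl d M z) = 0) z ?_ ?_ ?_
        · rw [map_zero, map_zero]
        · intro p q hp hq
          rw [map_add, map_add, hp, hq, add_zero]
        · intro i m
          have h3 : dl d M (pt d i m) = pt d i m - pt d (i - 1) m := by
            apply Dm_ext
            intro j
            rw [evD_dl, map_sub, evD_pt, evD_pt, evD_pt]
            congr 1
            by_cases h : i = j + 1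
            · rw [if_pos h, if_pos (by omega)]
            · rw [if_neg h, if_neg (by omega)]
          rw [h3, map_sub, sg_pt, sg_pt, sub_self]
      exact h2 _

/-- **Extensions by the integers.** -/
theorem Reg_step (ht : dg d t = 1) (h : Reg (MonoidAlgebra ℤ d.ker)) : Reg (MonoidAlgebra ℤ G) := by
  obtain ⟨h1, h2⟩ := h
  have h3 : IsNoetherianRing (MonoidAlgebra ℤ G) := hall ht
  refine ⟨h3, fun M _ _ hM => ?_⟩
  obtain ⟨n, f, hf⟩ := Module.Finite.exists_fin' (MonoidAlgebra ℤ G) M
  refine FR_of_pieces ht (fun ι _ K => h2 K inferInstance)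
    (fun j : Fin n => f (Pi.single j 1)) fun m => ?_
  obtain ⟨x, rfl⟩ := hf m
  refine ⟨x, ?_⟩
  have h4 : x = ∑ j, x j • (Pi.single j 1 : Fin n → MonoidAlgebra ℤ G) := by
    have := (Pi.basisFun (MonoidAlgebra ℤ G) (Fin n)).sum_repr x
    simpa using this.symm
  conv_lhs => rw [h4]
  rw [map_sum]
  exact Finset.sum_congr rfl fun j _ => map_smul f _ _

end reg

end Pool.Agent.K6.H28.SF
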