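import Pool.Agent.K6.H28.SF.Ultra

set_option autoImplicit false

/-! # Reduction to finitely presented groups, one countable group, minimal counterexamples -/

namespace Pool.Agent.K6.H28.SF

open Matrix Filter

/-- the map of group rings induced by a homomorphism -/
noncomputable abbrev gr {G H : Type} [Group G] [Group H] (f : G →* H) :
    MonoidAlgebra ℤ G →+* MonoidAlgebra ℤ H := MonoidAlgebra.mapDomainRingHom ℤ f

/-- all idempotent matrices are stably free -/
def AllSf (G : Type) [Group G] : Prop :=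
  ∀ (n : ℕ) (E : Matrix (Fin n) (Fin n) (MonoidAlgebra ℤ G)), E * E = E → Sf E

theorem map_gr_comp {G H K ι κ : Type} [Group G] [Group H] [Group K] (f : G →* H) (g : H →* K)
    (A : Matrix ι κ (MonoidAlgebra ℤ G)) : (A.map (gr f)).map (gr g) = A.map (gr (g.comp f)) := by
  ext1 i j
  change gr g (gr f (A i j)) = gr (g.comp f) (A i j)
  rw [gr, gr, gr, MonoidAlgebra.mapDomainRingHom_comp]
  rfl

section tf

variable {F : Type} [Group F]

/-- the kernel of the largest torsion-free quotient of `F` in which the elements of `R` are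
trivial -/
def tfKer (R : Set F) : Subgroup F :=
  sInf {K : Subgroup F | K.Normal ∧ R ⊆ K ∧ ∀ g : F, ∀ k : ℕ, 0 < k → g ^ k ∈ K → g ∈ K}

instance (R : Set F) : (tfKer R).Normal := by
  refine ⟨fun x hx g => ?_⟩
  rw [tfKer, Subgroup.mem_sInf] at hx ⊢
  intro K hK
  exact hK.1.conj_mem x (hx K hK) g

theorem subset_tfKer (R : Set F) : R ⊆ tfKer R := by
  intro x hx
  change x ∈ tfKer R
  rw [tfKer, Subgroup.mem_sInf]
  exact fun K hK => hK.2.1 hx

theorem tfKer_isolated (R : Set F) (g : F) (k : ℕ) (hk : 0 < k) (h : g ^ k ∈ tfKer R) :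
    g ∈ tfKer R := by
  rw [tfKer, Subgroup.mem_sInf] at h ⊢
  exact fun K hK => hK.2.2 g k hk (h K hK)

theorem quot_tf (K : Subgroup F) [K.Normal]
    (hK : ∀ g : F, ∀ k : ℕ, 0 < k → g ^ k ∈ K → g ∈ K) (g : F ⧸ K) (hg : IsOfFinOrder g) :
    g = 1 := by
  obtain ⟨x, rfl⟩ := QuotientGroup.mk'_surjective _ g
  obtain ⟨k, hk, hx⟩ := isOfFinOrder_iff_pow_eq_one.1 hg
  rw [← map_pow, QuotientGroup.mk'_apply, QuotientGroup.eq_one_iff] at hx
  rw [QuotientGroup.mk'_apply, QuotientGroup.eq_one_iff]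
  exact hK x k hk hx

theorem tfKer_le_ker {G : Type} [Group G] (hG : ∀ g : G, IsOfFinOrder g → g = 1) (φ : F →* G)
    (R : Set F) (hR : ∀ r ∈ R, φ r = 1) : tfKer R ≤ φ.ker := by
  refine sInf_le ⟨inferInstance, hR, fun g k hk h => ?_⟩
  rw [MonoidHom.mem_ker] at h ⊢
  rw [map_pow] at h
  exact hG _ (isOfFinOrder_iff_pow_eq_one.2 ⟨k, hk, h⟩)

theorem mk_eq (K : Subgroup F) [K.Normal] (h k : F) :
    QuotientGroup.mk' K k = QuotientGroup.mk' K h ↔ k * h⁻¹ ∈ K := by
  rw [← div_eq_one, ← map_div, QuotientGroup.mk'_apply, QuotientGroup.eq_one_iff, div_eq_mul_inv]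

end tf

/-- lifting an element along a homomorphism whose image contains the support -/
theorem lift_supp {F G : Type} (φ : F → G) (x : MonoidAlgebra ℤ G)
    (hx : ∀ g ∈ x.coeff.support, ∃ y, φ y = g) :
    ∃ y : MonoidAlgebra ℤ F, MonoidAlgebra.mapDomain φ y = x := by
  classical
  by_cases hF : Nonempty F
  · let f : G → F := fun g => if h : ∃ y, φ y = g then h.choose else Classical.choice hF
    have hf : ∀ g ∈ x.coeff.support, φ (f g) = g := by
      intro g hg
      simp only [f]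
      rw [dif_pos (hx g hg)]
      exact (hx g hg).choose_spec
    refine ⟨MonoidAlgebra.mapDomain f x, ?_⟩
    have h1 : Finsupp.mapDomain φ (Finsupp.mapDomain f x.coeff) = x.coeff := by
      rw [← Finsupp.mapDomain_comp]
      conv_rhs => rw [← Finsupp.mapDomain_id (v := x.coeff)]
      exact Finsupp.mapDomain_congr hf
    ext g
    exact congrArg (fun v : G →₀ ℤ => v g) h1
  · refine ⟨0, ?_⟩
    have h1 : x = 0 := by
      ext g
      by_contra hg
      obtain ⟨y, _⟩ := hx g (Finsupp.mem_support_iff.2 hg)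
      exact hF ⟨y⟩
    rw [h1, MonoidAlgebra.mapDomain_zero]

/-- every finite matrix over `ℤG` comes from a free group of finite rank -/
theorem lift_free {G ι κ : Type} [Group G] [Fintype ι] [Fintype κ]
    (A : Matrix ι κ (MonoidAlgebra ℤ G)) :
    ∃ (n : ℕ) (φ : FreeGroup (Fin n) →* G) (B : Matrix ι κ (MonoidAlgebra ℤ (FreeGroup (Fin n)))),
      B.map (gr φ) = A := by
  classical
  let S : Finset G := Finset.univ.biUnion fun p : ι =>
    Finset.univ.biUnion fun q : κ => (A p q).coeff.support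
  let φ : FreeGroup (Fin S.card) →* G := FreeGroup.lift fun i => ((S.equivFin.symm i : S) : G)
  have h1 : ∀ g ∈ S, ∃ y, φ y = g := by
    intro g hg
    refine ⟨FreeGroup.of (S.equivFin ⟨g, hg⟩), ?_⟩
    simp [φ]
  have h2 : ∀ p q, ∃ y, MonoidAlgebra.mapDomain φ y = A p q := by
    intro p q
    refine lift_supp φ (A p q) fun g hg => h1 g ?_
    simp only [S, Finset.mem_biUnion]
    exact ⟨p, Finset.mem_univ _, q, Finset.mem_univ _, hg⟩
  choose B hB using h2
  exact ⟨S.card, φ, fun p q => B p q, by ext1 p q; exact hB p q⟩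

/-- **Reduction to the largest torsion-free quotients of finitely presented groups.** -/
theorem allSf_of_fp (h : ∀ (n : ℕ) (R : Finset (FreeGroup (Fin n))),
      AllSf (FreeGroup (Fin n) ⧸ tfKer (R : Set (FreeGroup (Fin n)))))
    (G : Type) [Group G] (hG : ∀ g : G, IsOfFinOrder g → g = 1) : AllSf G := by
  classical
  intro m E hE
  obtain ⟨n, φ, B, hB⟩ := lift_free E
  let X := B * B - B
  have hX : ∀ p q, MonoidAlgebra.mapDomain φ (X p q) = 0 := by
    intro p q
    have h1 : X.map (gr φ) = 0 := by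
      rw [show X.map (gr φ) = (B * B).map (gr φ) - B.map (gr φ) from by
        ext1 i j; exact map_sub (gr φ) _ _]
      rw [Matrix.map_mul, hB, hE, sub_self]
    exact congrFun (congrFun h1 p) q
  let R : Finset (FreeGroup (Fin n)) := Finset.univ.biUnion fun p : Fin m =>
    Finset.univ.biUnion fun q : Fin m =>
      (((X p q).coeff.support ×ˢ (X p q).coeff.support).filter fun z => φ z.1 = φ z.2).image
        fun z => z.1 * z.2⁻¹
  have hR : ∀ r ∈ (R : Set (FreeGroup (Fin n))), φ r = 1 := by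
    intro r hr
    rw [Finset.mem_coe] at hr
    simp only [R, Finset.mem_biUnion, Finset.mem_image, Finset.mem_filter] at hr
    obtain ⟨p, _, q, _, z, ⟨_, hz⟩, rfl⟩ := hr
    rw [map_mul, map_inv, hz, mul_inv_cancel]
  have hle := tfKer_le_ker hG φ (R : Set (FreeGroup (Fin n))) hR
  let π := QuotientGroup.mk' (tfKer (R : Set (FreeGroup (Fin n))))
  let ψ : (FreeGroup (Fin n) ⧸ tfKer (R : Set (FreeGroup (Fin n)))) →* G :=
    QuotientGroup.lift _ φ hle
  have hψ : ψ.comp π = φ := by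
    ext x
    rfl
  have hX2 : ∀ p q, MonoidAlgebra.mapDomain π (X p q) = 0 := by
    intro p q
    rw [mapDomain_zero_congr π φ, hX]
    intro x hx y hy
    rw [mk_eq]
    constructor
    · intro hxy
      have := hle hxy
      rwa [MonoidHom.mem_ker, map_mul, map_inv, mul_inv_eq_one] at this
    · intro hxy
      apply subset_tfKer
      rw [Finset.mem_coe]
      simp only [R, Finset.mem_biUnion, Finset.mem_image, Finset.mem_filter]
      exact ⟨p, Finset.mem_univ _, q, Finset.mem_univ _, (y, x),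
        ⟨Finset.mem_product.2 ⟨hy, hx⟩, hxy⟩, rfl⟩
  have hidem : B.map (gr π) * B.map (gr π) = B.map (gr π) := by
    rw [← Matrix.map_mul]
    ext1 p q
    have h1 : gr π (X p q) = 0 := hX2 p q
    have h2 : gr π (X p q) = gr π ((B * B) p q) - gr π (B p q) := map_sub (gr π) _ _
    rw [h2, sub_eq_zero] at h1
    exact h1
  have h1 := (h n R m (B.map (gr π)) hidem).map (gr ψ)
  rwa [map_gr_comp, hψ, hB] at h1

/-- a countable family of countable torsion-free groups: one group which contains them as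
retracts -/
theorem exists_countable_gen (I : Type) [Countable I] (T : I → Type) [∀ i, Group (T i)]
    [∀ i, Countable (T i)] (htf : ∀ i, ∀ g : T i, IsOfFinOrder g → g = 1) :
    ∃ (U : Type) (_ : Group U), Countable U ∧ (∀ g : U, IsOfFinOrder g → g = 1) ∧
    ∀ i, ∃ (j : T i →* U) (r : U →* T i), r.comp j = MonoidHom.id _ := by
  classical
  let L : FreeGroup (Σ i, T i) →* (∀ i, T i) :=
    FreeGroup.lift fun p : Σ i, T i => Pi.mulSingle p.1 p.2
  refine ⟨L.range, inferInstance, ?_, ?_, ?_⟩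
  · have : Function.Surjective L.rangeRestrict := L.rangeRestrict_surjective
    exact this.countable
  · rintro ⟨x, hx⟩ hg
    obtain ⟨k, hk, h1⟩ := isOfFinOrder_iff_pow_eq_one.1 hg
    apply Subtype.ext
    funext i
    have h2 : (x i) ^ k = 1 := by
      have := congrArg (fun z : L.range => (z : ∀ i, T i) i) h1
      exact this
    exact htf i (x i) (isOfFinOrder_iff_pow_eq_one.2 ⟨k, hk, h2⟩)
  · intro i
    refine ⟨(MonoidHom.mulSingle T i).codRestrict L.range fun x => ?_,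
      (Pi.evalMonoidHom T i).comp L.range.subtype, ?_⟩
    · refine ⟨FreeGroup.of ⟨i, x⟩, ?_⟩
      simp [L]
    · apply MonoidHom.ext
      intro x
      change (Pi.mulSingle i x : ∀ i, T i) i = x
      exact Pi.mulSingle_eq_same (M := T) i x

/-- finite sets of letters -/
def Dom : ℕ ⊕ (ℕ × ℕ) → Type
  | Sum.inl n => Fin n
  | Sum.inr p => Fin p.1 × Fin p.1 × Fin p.2

instance (c : ℕ ⊕ (ℕ × ℕ)) : Countable (Dom c) := by
  rcases c with n | p
  · exact inferInstanceAs (Countable (Fin n))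
  · exact inferInstanceAs (Countable (Fin p.1 × Fin p.1 × Fin p.2))

/-- **One countable torsion-free group**, which contains the largest torsion-free quotients of all
finitely presented groups as retracts. -/
theorem exists_countable : ∃ (U : Type) (_ : Group U), Countable U ∧
    (∀ g : U, IsOfFinOrder g → g = 1) ∧
    ∀ (c : ℕ ⊕ (ℕ × ℕ)) (R : Finset (FreeGroup (Dom c))),
      ∃ (j : (FreeGroup (Dom c) ⧸ tfKer (R : Set (FreeGroup (Dom c)))) →* U)
        (r : U →* (FreeGroup (Dom c) ⧸ tfKer (R : Set (FreeGroup (Dom c))))),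
        r.comp j = MonoidHom.id _ := by
  classical
  have hc : ∀ i : (Σ c : ℕ ⊕ (ℕ × ℕ), Finset (FreeGroup (Dom c))),
      Countable (FreeGroup (Dom i.1) ⧸ tfKer (i.2 : Set (FreeGroup (Dom i.1)))) := fun i =>
    (QuotientGroup.mk'_surjective (tfKer (i.2 : Set (FreeGroup (Dom i.1))))).countable
  obtain ⟨U, i1, h1, h2, h3⟩ := exists_countable_gen
    (Σ c : ℕ ⊕ (ℕ × ℕ), Finset (FreeGroup (Dom c)))
    (fun i => FreeGroup (Dom i.1) ⧸ tfKer (i.2 : Set (FreeGroup (Dom i.1))))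
    fun i => quot_tf _ (tfKer_isolated _)
  exact ⟨U, i1, h1, h2, fun c R => h3 ⟨c, R⟩⟩

theorem allSf_retract {T U : Type} [Group T] [Group U] (j : T →* U) (r : U →* T)
    (h : r.comp j = MonoidHom.id _) (hU : AllSf U) : AllSf T := by
  intro n E hE
  have h1 : E.map (gr j) * E.map (gr j) = E.map (gr j) := by rw [← Matrix.map_mul, hE]
  have h2 := (hU n _ h1).map (gr r)
  rw [map_gr_comp, h] at h2
  have h3 : E.map (gr (MonoidHom.id T)) = E := by
    ext1 p q
    change gr (MonoidHom.id T) (E p q) = E p q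
    rw [gr, MonoidAlgebra.mapDomainRingHom_id]
    rfl
  rwa [h3] at h2

/-- finite subsets of the union of a chain -/
theorem chain_finset {F : Type} [Group F] (c : Set (Subgroup F)) (hc : IsChain (· ≤ ·) c)
    (y : Subgroup F) (hy : y ∈ c) (T : Finset F) (hT : ∀ x ∈ T, ∃ K ∈ c, x ∈ K) :
    ∃ K ∈ c, ∀ x ∈ T, x ∈ K := by
  classical
  induction T using Finset.induction_on with
  | empty => exact ⟨y, hy, fun x hx => absurd hx (Finset.notMem_empty x)⟩
  | insert a s _ ih =>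
    obtain ⟨K1, h1, h2⟩ := ih fun x hx => hT x (Finset.mem_insert_of_mem hx)
    obtain ⟨K2, h3, h4⟩ := hT a (Finset.mem_insert_self _ _)
    rcases hc.total h1 h3 with h5 | h5
    · refine ⟨K2, h3, fun x hx => ?_⟩
      rcases Finset.mem_insert.1 hx with rfl | hx
      · exact h4
      · exact h5 (h2 x hx)
    · refine ⟨K1, h1, fun x hx => ?_⟩
      rcases Finset.mem_insert.1 hx with rfl | hx
      · exact h5 h4
      · exact h2 x hx

theorem zero_of_sup {F : Type} [Group F] (c : Set (Subgroup F)) (hc : IsChain (· ≤ ·) c)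
    (y : Subgroup F) (hy : y ∈ c) (hn : ∀ K ∈ c, K.Normal) (M : Subgroup F) [M.Normal]
    (hM : ∀ x, x ∈ M ↔ ∃ K ∈ c, x ∈ K) {ι κ : Type} [Fintype ι] [Fintype κ]
    (X : Matrix ι κ (MonoidAlgebra ℤ F)) (hX : X.map (gr (QuotientGroup.mk' M)) = 0) :
    ∃ K ∈ c, ∀ K' ∈ c, K ≤ K' → ∀ _ : K'.Normal, X.map (gr (QuotientGroup.mk' K')) = 0 := by
  classical
  let T : Finset F := Finset.univ.biUnion fun p : ι =>
    Finset.univ.biUnion fun q : κ =>
      (((X p q).coeff.support ×ˢ (X p q).coeff.support).filter fun z => z.1 * z.2⁻¹ ∈ M).image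
        fun z => z.1 * z.2⁻¹
  obtain ⟨K, hK, hT⟩ := chain_finset c hc y hy T (by
    intro x hx
    simp only [T, Finset.mem_biUnion, Finset.mem_image, Finset.mem_filter] at hx
    obtain ⟨p, _, q, _, z, ⟨_, hz⟩, rfl⟩ := hx
    exact (hM _).1 hz)
  refine ⟨K, hK, fun K' hK' hKK' _ => ?_⟩
  ext1 p q
  have h1 : MonoidAlgebra.mapDomain (QuotientGroup.mk' M) (X p q) = 0 :=
    congrFun (congrFun hX p) q
  change MonoidAlgebra.mapDomain (QuotientGroup.mk' K') (X p q) = 0
  rw [mapDomain_zero_congr (QuotientGroup.mk' K') (QuotientGroup.mk' M)]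
  · exact h1
  intro h hh k hk
  rw [mk_eq, mk_eq]
  constructor
  · intro h2
    exact (hM _).2 ⟨K', hK', h2⟩
  · intro h2
    apply hKK'
    apply hT
    simp only [T, Finset.mem_biUnion, Finset.mem_image, Finset.mem_filter]
    exact ⟨p, Finset.mem_univ _, q, Finset.mem_univ _, (k, h),
      ⟨Finset.mem_product.2 ⟨hk, hh⟩, h2⟩, rfl⟩

/-- being stably free over the quotient by `K` -/
def SfAt {F : Type} [Group F] {m : ℕ} (B : Matrix (Fin m) (Fin m) (MonoidAlgebra ℤ F))
    (K : Subgroup F) : Prop :=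
  ∀ _ : K.Normal, Sf (B.map (gr (QuotientGroup.mk' K)))

/-- a matrix which is stably free over the union of a chain is stably free at some stage -/
theorem sfAt_of_sup {F : Type} [Group F] {m : ℕ} (B : Matrix (Fin m) (Fin m) (MonoidAlgebra ℤ F))
    (c : Set (Subgroup F)) (hc : IsChain (· ≤ ·) c)
    (y : Subgroup F) (hy : y ∈ c) (hn : ∀ K ∈ c, K.Normal) (M : Subgroup F) (hMn : M.Normal)
    (hM : ∀ x, x ∈ M ↔ ∃ K ∈ c, x ∈ K) (h : SfAt B M) : ∃ K ∈ c, SfAt B K := by
  obtain ⟨a, b, U, V, h1, h2⟩ := h hMn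
  obtain ⟨Uh, hU⟩ := mat_surj (QuotientGroup.mk' M) (QuotientGroup.mk'_surjective _) U
  obtain ⟨Vh, hV⟩ := mat_surj (QuotientGroup.mk' M) (QuotientGroup.mk'_surjective _) V
  have hsub : ∀ {H : Type} [Group H] (φ : F →* H) {ι κ : Type}
      (A C : Matrix ι κ (MonoidAlgebra ℤ F)), (A - C).map (gr φ) = A.map (gr φ) - C.map (gr φ) :=
    fun φ _ _ A C => by ext1 i j; exact map_sub (gr φ) _ _
  have hblk : ∀ {H : Type} [Group H] (φ : F →* H),
      (fromBlocks B 0 0 1 : Matrix (Fin m ⊕ Fin a) (Fin m ⊕ Fin a) _).map (gr φ)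
        = fromBlocks (B.map (gr φ)) 0 0 1 := by
    intro H _ φ
    rw [Matrix.fromBlocks_map]
    simp
  have hone : ∀ {H : Type} [Group H] (φ : F →* H),
      (1 : Matrix (Fin b) (Fin b) (MonoidAlgebra ℤ F)).map (gr φ) = 1 := by
    intro H _ φ
    simp
  obtain ⟨K1, hK1, h3⟩ := zero_of_sup c hc y hy hn M hM
    (Uh * Vh - fromBlocks B 0 0 1) (by
      rw [hsub, Matrix.map_mul, hblk, sub_eq_zero]
      exact (congrArg₂ (· * ·) hU hV).trans h1)
  obtain ⟨K2, hK2, h4⟩ := zero_of_sup c hc y hy hn M hM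
    (Vh * Uh - 1) (by
      rw [hsub, Matrix.map_mul, hone, sub_eq_zero]
      exact (congrArg₂ (· * ·) hV hU).trans h2)
  have key : ∀ K ∈ c, K1 ≤ K → K2 ≤ K → SfAt B K := by
    intro K hK h5 h6 hKn
    refine ⟨a, b, Uh.map (gr (QuotientGroup.mk' K)), Vh.map (gr (QuotientGroup.mk' K)), ?_, ?_⟩
    · have h7 := h3 K hK h5 hKn
      rwa [hsub, Matrix.map_mul, hblk, sub_eq_zero] at h7
    · have h7 := h4 K hK h6 hKn
      rwa [hsub, Matrix.map_mul, hone, sub_eq_zero] at h7
  rcases hc.total hK1 hK2 with h5 | h5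
  · exact ⟨K2, hK2, key K2 hK2 h5 le_rfl⟩
  · exact ⟨K1, hK1, key K1 hK1 le_rfl h5⟩

/-- a maximal quotient over which a matrix is not stably free -/
theorem exists_maximal {G : Type} [Group G] {m : ℕ}
    (E : Matrix (Fin m) (Fin m) (MonoidAlgebra ℤ G))
    (h0 : ∀ g : G, ∀ k : ℕ, 0 < k → g ^ k ∈ (⊥ : Subgroup G) → g ∈ (⊥ : Subgroup G))
    (hS : ¬ Sf E) :
    ∃ (K : Subgroup G) (_ : K.Normal), (∀ g : G, ∀ k : ℕ, 0 < k → g ^ k ∈ K → g ∈ K) ∧
      ¬ Sf (E.map (gr (QuotientGroup.mk' K))) ∧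
      ∀ (L : Subgroup G) (_ : L.Normal), K < L →
        (∀ g : G, ∀ k : ℕ, 0 < k → g ^ k ∈ L → g ∈ L) →
        Sf (E.map (gr (QuotientGroup.mk' L))) := by
  classical
  let s : Set (Subgroup G) := {K | K.Normal ∧
    (∀ g : G, ∀ k : ℕ, 0 < k → g ^ k ∈ K → g ∈ K) ∧ ¬ SfAt E K}
  have hs0 : (⊥ : Subgroup G) ∈ s := by
    refine ⟨inferInstance, h0, fun h => hS ?_⟩
    have h1 := (h inferInstance).map
      (gr (QuotientGroup.quotientBot (G := G)).toMonoidHom)
    rw [map_gr_comp] at h1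
    have h2 : (QuotientGroup.quotientBot (G := G)).toMonoidHom.comp
        (QuotientGroup.mk' (⊥ : Subgroup G)) = MonoidHom.id G := by
      ext x
      rfl
    rw [h2] at h1
    have h3 : E.map (gr (MonoidHom.id G)) = E := by
      ext1 p q
      change gr (MonoidHom.id G) (E p q) = E p q
      rw [gr, MonoidAlgebra.mapDomainRingHom_id]
      rfl
    rwa [h3] at h1
  obtain ⟨K, _, hmax⟩ := zorn_le_nonempty₀ s (by
    intro c hcs hc y hy
    have hmem : ∀ x, x ∈ sSup c ↔ ∃ K ∈ c, x ∈ K := fun x =>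
      Subgroup.mem_sSup_of_directedOn ⟨y, hy⟩ hc.directedOn
    have hN : (sSup c).Normal := by
      refine ⟨fun x hx g => ?_⟩
      obtain ⟨K, hK, hxK⟩ := (hmem x).1 hx
      exact (hmem _).2 ⟨K, hK, (hcs hK).1.conj_mem x hxK g⟩
    refine ⟨sSup c, ⟨hN, ?_, ?_⟩, fun z hz => le_sSup hz⟩
    · intro g k hk h
      obtain ⟨K, hK, hxK⟩ := (hmem _).1 h
      exact (hmem _).2 ⟨K, hK, (hcs hK).2.1 g k hk hxK⟩
    · intro h
      obtain ⟨K, hK, h1⟩ := sfAt_of_sup E c hc y hy (fun K hK => (hcs hK).1) (sSup c) hN hmem h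
      exact (hcs hK).2.2 h1) ⊥ hs0
  obtain ⟨⟨hKn, hKi, hKS⟩, hmax⟩ := hmax
  refine ⟨K, hKn, hKi, fun h => hKS fun _ => h, fun L hL hKL hLi => ?_⟩
  by_contra hcon
  have h1 : L ≤ K := hmax ⟨hL, hLi, fun h => hcon (h hL)⟩ hKL.le
  exact absurd hKL (not_lt_of_ge h1)

/-- **Minimal counterexamples.** -/
theorem exists_minimal {F : Type} [Group F] (K0 : Subgroup F) [K0.Normal]
    (hK0 : ∀ g : F, ∀ k : ℕ, 0 < k → g ^ k ∈ K0 → g ∈ K0) {m : ℕ}
    (E : Matrix (Fin m) (Fin m) (MonoidAlgebra ℤ (F ⧸ K0))) (hE : E * E = E) (hS : ¬ Sf E) :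
    ∃ (K : Subgroup F) (_ : K.Normal) (hK : K0 ≤ K),
      (∀ g : F, ∀ k : ℕ, 0 < k → g ^ k ∈ K → g ∈ K) ∧
      ∃ E' : Matrix (Fin m) (Fin m) (MonoidAlgebra ℤ (F ⧸ K)), E' * E' = E' ∧ ¬ Sf E' ∧
        ∀ (L : Subgroup (F ⧸ K)) (_ : L.Normal), L ≠ ⊥ →
          (∀ g : (F ⧸ K) ⧸ L, IsOfFinOrder g → g = 1) →
          Sf (E'.map (gr (QuotientGroup.mk' L))) := by
  classical
  obtain ⟨B, hB⟩ := mat_surj (QuotientGroup.mk' K0) (QuotientGroup.mk'_surjective _) E
  let s : Set (Subgroup F) := {K | K.Normal ∧ K0 ≤ K ∧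
    (∀ g : F, ∀ k : ℕ, 0 < k → g ^ k ∈ K → g ∈ K) ∧ ¬ SfAt B K}
  have hs0 : K0 ∈ s := by
    refine ⟨inferInstance, le_rfl, hK0, fun h => hS ?_⟩
    have h1 := h inferInstance
    rwa [hB] at h1
  obtain ⟨K, hK0K, hmax⟩ := zorn_le_nonempty₀ s (by
    intro c hcs hc y hy
    have hmem : ∀ x, x ∈ sSup c ↔ ∃ K ∈ c, x ∈ K := fun x =>
      Subgroup.mem_sSup_of_directedOn ⟨y, hy⟩ hc.directedOn
    have hN : (sSup c).Normal := by
      refine ⟨fun x hx g => ?_⟩
      obtain ⟨K, hK, hxK⟩ := (hmem x).1 hx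
      exact (hmem _).2 ⟨K, hK, (hcs hK).1.conj_mem x hxK g⟩
    refine ⟨sSup c, ⟨hN, (hcs hy).2.1.trans (le_sSup hy), ?_, ?_⟩, fun z hz => le_sSup hz⟩
    · intro g k hk h
      obtain ⟨K, hK, hxK⟩ := (hmem _).1 h
      exact (hmem _).2 ⟨K, hK, (hcs hK).2.2.1 g k hk hxK⟩
    · intro h
      obtain ⟨K, hK, h1⟩ := sfAt_of_sup B c hc y hy (fun K hK => (hcs hK).1) (sSup c) hN hmem h
      exact (hcs hK).2.2.2 h1) K0 hs0
  obtain ⟨⟨hKn, _, hKi, hKS⟩, hmax⟩ := hmax
  refine ⟨K, hKn, hK0K, hKi, B.map (gr (QuotientGroup.mk' K)), ?_, fun h => hKS fun _ => h, ?_⟩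
  · let θ : F ⧸ K0 →* F ⧸ K := QuotientGroup.map K0 K (MonoidHom.id F) hK0K
    have h1 : θ.comp (QuotientGroup.mk' K0) = QuotientGroup.mk' K := by
      ext x
      rfl
    rw [← h1, ← map_gr_comp]
    have h2 : B.map (gr (QuotientGroup.mk' K0)) = E := hB
    rw [h2, ← Matrix.map_mul, hE]
  · intro L hL hLne hLtf
    let L' : Subgroup F := L.comap (QuotientGroup.mk' K)
    have hL'n : L'.Normal := Subgroup.normal_comap _
    have hKL' : K ≤ L' := by
      intro x hx
      change QuotientGroup.mk' K x ∈ L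
      have : QuotientGroup.mk' K x = 1 := by
        rw [QuotientGroup.mk'_apply, QuotientGroup.eq_one_iff]; exact hx
      rw [this]; exact L.one_mem
    have hL'i : ∀ g : F, ∀ k : ℕ, 0 < k → g ^ k ∈ L' → g ∈ L' := by
      intro g k hk h
      have h1 : (QuotientGroup.mk' K g) ^ k ∈ L := by rw [← map_pow]; exact h
      have h2 := hLtf (QuotientGroup.mk' L (QuotientGroup.mk' K g))
        (isOfFinOrder_iff_pow_eq_one.2 ⟨k, hk, by
          rw [← map_pow, QuotientGroup.mk'_apply, QuotientGroup.eq_one_iff]; exact h1⟩)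
      rw [QuotientGroup.mk'_apply, QuotientGroup.eq_one_iff] at h2
      exact h2
    have hL'S : SfAt B L' := by
      by_contra hcon
      have h1 : L' ≤ K := hmax ⟨hL'n, hK0K.trans hKL', hL'i, hcon⟩ hKL'
      apply hLne
      rw [eq_bot_iff]
      intro z hz
      obtain ⟨x, rfl⟩ := QuotientGroup.mk'_surjective _ z
      have h2 : x ∈ K := h1 hz
      rw [Subgroup.mem_bot, QuotientGroup.mk'_apply, QuotientGroup.eq_one_iff]
      exact h2
    have hker : L' ≤ ((QuotientGroup.mk' L).comp (QuotientGroup.mk' K)).ker := by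
      intro x hx
      rw [MonoidHom.mem_ker, MonoidHom.comp_apply, QuotientGroup.mk'_apply (N := L),
        QuotientGroup.eq_one_iff]
      exact hx
    let θ : F ⧸ L' →* (F ⧸ K) ⧸ L :=
      QuotientGroup.lift L' ((QuotientGroup.mk' L).comp (QuotientGroup.mk' K)) hker
    have h1 : θ.comp (QuotientGroup.mk' L') = (QuotientGroup.mk' L).comp (QuotientGroup.mk' K) := by
      ext x
      rfl
    rw [map_gr_comp, ← h1, ← map_gr_comp]
    exact (hL'S hL'n).map (gr θ)

end Pool.Agent.K6.H28.SF
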